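import Mathlib

/-!
The numerical inequalities for the function
`f N = 2 log₂ N - 2 log₂ log₂ N + 2 log₂ e - 3` and all `N ≥ 2 ^ 50`.
-/

set_option autoImplicit false

namespace Pool.Agent.Y812.CG

/-- the function of the problem -/
noncomputable def f (N : ℕ) : ℝ :=
  2 * Real.logb 2 N - 2 * Real.logb 2 (Real.logb 2 N) + 2 * Real.logb 2 (Real.exp 1) - 3

/-- the error term -/
noncomputable def eta (N : ℕ) : ℝ :=
  3 * Real.logb 2 (Real.logb 2 N) / Real.logb 2 N

lemma log_fact_le (q : ℕ) (hq : 1 ≤ q) :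
    Real.log (q.factorial : ℝ) ≤ 1 + Real.log q + q * Real.log q - q := by
  induction q, hq using Nat.le_induction with
  | base => simp
  | succ q hq ih =>
    have hq0 : (0 : ℝ) < q := by exact_mod_cast hq
    have hf : (0 : ℝ) < (q.factorial : ℝ) := by exact_mod_cast Nat.factorial_pos q
    have h1 : Real.log (((q + 1).factorial : ℕ) : ℝ) =
        Real.log ((q : ℝ) + 1) + Real.log (q.factorial : ℝ) := by
      rw [Nat.factorial_succ]
      push_cast
      exact Real.log_mul (by positivity) hf.ne'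
    have h2 : Real.log ((q : ℝ) / (q + 1)) ≤ (q : ℝ) / (q + 1) - 1 :=
      Real.log_le_sub_one_of_pos (by positivity)
    rw [Real.log_div hq0.ne' (by positivity)] at h2
    have h3 : ((q : ℝ) + 1) * (Real.log q - Real.log (q + 1)) ≤ -1 := by
      have h4 : ((q : ℝ) + 1) * ((q : ℝ) / (q + 1) - 1) = -1 := by field_simp; ring
      rw [← h4]
      exact mul_le_mul_of_nonneg_left h2 (by positivity)
    rw [h1]
    push_cast
    nlinarith

lemma log_fact_ge (q : ℕ) (hq : 1 ≤ q) :
    q * Real.log q - q ≤ Real.log (q.factorial : ℝ) := by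
  have hq0 : (0 : ℝ) < q := by exact_mod_cast hq
  have hf : (0 : ℝ) < (q.factorial : ℝ) := by exact_mod_cast Nat.factorial_pos q
  have h := Real.pow_div_factorial_le_exp (q : ℝ) hq0.le q
  have h2 := Real.log_le_log (by positivity) h
  rw [Real.log_exp, Real.log_div (by positivity) hf.ne', Real.log_pow] at h2
  linarith

lemma pos_of_mul_pos_of_pos_left' {a b : ℝ} (ha : 0 < a) (h : 0 < a * b) : 0 < b := by
  by_contra hb
  have := mul_nonpos_of_nonneg_of_nonpos ha.le (not_lt.1 hb)
  linarith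

section

variable {N : ℕ}

lemma base_facts (hN : 2 ^ 50 ≤ N) : ∃ n l : ℝ, 50 ≤ n ∧ Real.log N = n * Real.log 2 ∧
    l = Real.log n ∧ 6 * Real.log 2 - 0.28 ≤ l ∧ l ≤ 6 * Real.log 2 - 1 + n / 64 ∧
    f N * Real.log 2 = 2 * n * Real.log 2 - 2 * l + 2 - 3 * Real.log 2 ∧
    eta N * Real.log 2 * n = 3 * l := by
  have hc : 0 < Real.log 2 := Real.log_pos (by norm_num)
  have hNr : (2 : ℝ) ^ 50 ≤ (N : ℝ) := by exact_mod_cast hN
  have hN0 : (0 : ℝ) < N := lt_of_lt_of_le (by positivity) hNr
  have hn : 50 ≤ Real.log N / Real.log 2 := by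
    rw [le_div_iff₀ hc]
    have := Real.log_le_log (by positivity) hNr
    rw [Real.log_pow] at this
    exact_mod_cast this
  have hn0 : 0 < Real.log N / Real.log 2 := by linarith
  refine ⟨Real.log N / Real.log 2, Real.log (Real.log N / Real.log 2), hn, ?_, rfl, ?_, ?_, ?_, ?_⟩
  · field_simp
  · have h := Real.log_le_log (show (0 : ℝ) < 50 by norm_num) hn
    have h2 := Real.log_le_sub_one_of_pos (show (0 : ℝ) < 64 / 50 by norm_num)
    have h64 : Real.log 64 = 6 * Real.log 2 := by
      rw [show (64 : ℝ) = 2 ^ 6 by norm_num, Real.log_pow]; norm_num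
    rw [Real.log_div (by norm_num) (by norm_num), h64] at h2
    norm_num at h2
    linarith
  · have h := Real.log_le_sub_one_of_pos (show 0 < (Real.log N / Real.log 2) / 64 by positivity)
    have h64 : Real.log 64 = 6 * Real.log 2 := by
      rw [show (64 : ℝ) = 2 ^ 6 by norm_num, Real.log_pow]; norm_num
    rw [Real.log_div hn0.ne' (by norm_num), h64] at h
    linarith
  · unfold f
    simp only [Real.logb, Real.log_exp]
    field_simp
  · have hlN : Real.log N ≠ 0 := ((div_pos_iff_of_pos_right hc).1 hn0).ne'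
    unfold eta
    simp only [Real.logb]
    field_simp

lemma log_choose_ge {q : ℕ} (hq : 1 ≤ q) (hqN : 2 * q ^ 2 ≤ N) :
    q * Real.log N - Real.log 2 - (1 + Real.log q + q * Real.log q - q) ≤
      Real.log (N.choose q : ℝ) := by
  have hN0 : 0 < N := by
    have : 0 < 2 * q ^ 2 := by positivity
    omega
  have hNr : (0 : ℝ) < N := by exact_mod_cast hN0
  have hqle : q ≤ N := by nlinarith
  have h1 : (N + 1 - q) ^ q ≤ q.factorial * N.choose q := by
    rw [← Nat.descFactorial_eq_factorial_mul_choose]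
    exact Nat.pow_sub_le_descFactorial N q
  have h2 : (((N + 1 - q : ℕ) : ℝ)) ^ q ≤ (q.factorial : ℝ) * (N.choose q : ℝ) := by
    exact_mod_cast h1
  have h3 : ((N + 1 - q : ℕ) : ℝ) = N * (1 + (-(((q : ℝ) - 1) / N))) := by
    rw [Nat.cast_sub (by omega)]
    push_cast
    field_simp
    ring
  have hq1 : (1 : ℝ) ≤ q := by exact_mod_cast hq
  have hqN' : 2 * (q : ℝ) ^ 2 ≤ N := by exact_mod_cast hqN
  have ha : ((q : ℝ) - 1) / N ≤ 1 := by
    rw [div_le_one hNr]; nlinarith
  have h4 := one_add_mul_le_pow (a := -(((q : ℝ) - 1) / N)) (by linarith) q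
  have h5 : (1 : ℝ) / 2 ≤ 1 + q * (-(((q : ℝ) - 1) / N)) := by
    have : (q : ℝ) * (((q : ℝ) - 1) / N) ≤ 1 / 2 := by
      rw [← mul_div_assoc, div_le_iff₀ hNr]; nlinarith
    linarith
  have h6 : (N : ℝ) ^ q * (1 / 2) ≤ (q.factorial : ℝ) * (N.choose q : ℝ) := by
    refine le_trans ?_ h2
    rw [h3, mul_pow]
    exact mul_le_mul_of_nonneg_left (h5.trans h4) (by positivity)
  have hf : (0 : ℝ) < (q.factorial : ℝ) := by exact_mod_cast Nat.factorial_pos q
  have hch : (0 : ℝ) < (N.choose q : ℝ) := by exact_mod_cast Nat.choose_pos hqle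
  have h7 := Real.log_le_log (by positivity) h6
  rw [Real.log_mul (by positivity) (by norm_num), Real.log_mul hf.ne' hch.ne', Real.log_pow,
    one_div, Real.log_inv] at h7
  have h8 := log_fact_le q hq
  linarith

theorem lower_facts (hN : 2 ^ 50 ≤ N) {q : ℕ} (h1 : (q : ℝ) ≤ f N - eta N)
    (h2 : f N - eta N - 1 < q) :
    3 ≤ q ∧ 2 * q + 100 ≤ N ∧ 16 * q * N ≤ 2 ^ q ∧ 6 * (q + 1) ^ 7 ≤ N ∧
      2 * N ^ 2 * (q + 1) * 2 ^ (q.choose 2) ≤ N.choose q := by
  obtain ⟨n, l, hn, hlogN, hl, hl1, hl2, hf, he⟩ := base_facts hN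
  have c1 := Real.log_two_gt_d9
  have c2 := Real.log_two_lt_d9
  set c := Real.log 2 with hc
  have hc0 : 0 < c := by linarith
  have hl0 : 0 < l := by linarith
  have hn0 : 0 < n := by linarith
  have hNr : (2 : ℝ) ^ 50 ≤ (N : ℝ) := by exact_mod_cast hN
  have hN0 : (0 : ℝ) < N := lt_of_lt_of_le (by positivity) hNr
  -- `w = eta c / 2`
  obtain ⟨w, hw⟩ : ∃ w : ℝ, 2 * w = eta N * c := ⟨eta N * c / 2, by ring⟩
  have hwn : 2 * n * w = 3 * l := by rw [← he, ← hw]; ring
  have hw0 : 0 < w := by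
    by_contra hneg
    have : n * w ≤ 0 := mul_nonpos_of_nonneg_of_nonpos hn0.le (not_lt.1 hneg)
    linarith
  have hw1 : w ≤ 0.12 := by
    have : n * w ≤ n * 0.12 := by nlinarith
    exact le_of_mul_le_mul_left this hn0
  have q1 : (q : ℝ) * c ≤ 2 * n * c - 2 * l + 2 - 3 * c - 2 * w := by nlinarith
  have q2 : 2 * n * c - 2 * l + 2 - 4 * c - 2 * w < (q : ℝ) * c := by nlinarith
  -- simple bounds for `q`
  have q3 : (q : ℝ) + 1 ≤ 2 * n - 9.11 := by
    have : ((q : ℝ) + 1) * c ≤ (2 * n - 9.11) * c := by nlinarith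
    exact le_of_mul_le_mul_right this hc0
  have q4 : (60 : ℝ) ≤ q := by
    have : (60 : ℝ) * c ≤ q * c := by nlinarith
    exact le_of_mul_le_mul_right this hc0
  have hq60 : 60 ≤ q := by exact_mod_cast q4
  have hq0 : (0 : ℝ) < q := by linarith
  have lq1 : Real.log ((q : ℝ) + 1) ≤ l + c := by
    have : Real.log ((q : ℝ) + 1) ≤ Real.log (n * 2) :=
      Real.log_le_log (by positivity) (by linarith)
    rw [Real.log_mul (by linarith) (by norm_num), ← hl] at this
    exact this
  have lq : Real.log (q : ℝ) ≤ l + c :=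
    (Real.log_le_log hq0 (by linarith)).trans lq1
  have lq2 : Real.log ((q : ℝ) + 1) ≤ 6 * c - 1 + (2 * n - 9.11) / 64 := by
    have h := Real.log_le_sub_one_of_pos (show 0 < ((q : ℝ) + 1) / 64 by positivity)
    have h64 : Real.log 64 = 6 * c := by
      rw [show (64 : ℝ) = 2 ^ 6 by norm_num, Real.log_pow, ← hc]; norm_num
    rw [Real.log_div (by positivity) (by norm_num), h64] at h
    linarith
  have H2 : 6 * (q + 1) ^ 7 ≤ N := by
    have h : (6 : ℝ) * ((q : ℝ) + 1) ^ 7 ≤ (N : ℝ) := by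
      have h8 : (6 : ℝ) * ((q : ℝ) + 1) ^ 7 ≤ 8 * ((q : ℝ) + 1) ^ 7 := by
        refine mul_le_mul_of_nonneg_right (by norm_num) (by positivity)
      refine h8.trans ((Real.log_le_log_iff (by positivity) hN0).1 ?_)
      rw [Real.log_mul (by norm_num) (by positivity), Real.log_pow, hlogN,
        show (8 : ℝ) = 2 ^ 3 by norm_num, Real.log_pow, ← hc]
      push_cast
      nlinarith
    exact_mod_cast h
  have H0 : 2 * q + 100 ≤ N := by
    have : (q + 1) * 1 ≤ (q + 1) * (q + 1) ^ 6 :=
      Nat.mul_le_mul_left _ (Nat.one_le_pow _ _ (by omega))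
    have e : (q + 1) * (q + 1) ^ 6 = (q + 1) ^ 7 := by ring
    rw [e] at this
    omega
  have H1 : 16 * q * N ≤ 2 ^ q := by
    have h : (16 : ℝ) * q * N ≤ 2 ^ q := by
      refine (Real.log_le_log_iff (by positivity) (by positivity)).1 ?_
      rw [Real.log_mul (by positivity) (by positivity), Real.log_mul (by norm_num) (by positivity),
        Real.log_pow, hlogN, show (16 : ℝ) = 2 ^ 4 by norm_num, Real.log_pow, ← hc]
      push_cast
      nlinarith
    exact_mod_cast h
  refine ⟨by omega, H0, H1, H2, ?_⟩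
  have hqN : 2 * q ^ 2 ≤ N := by
    have h3 : q ^ 2 ≤ (q + 1) ^ 7 := by
      calc q ^ 2 ≤ (q + 1) ^ 2 := Nat.pow_le_pow_left (by omega) 2
        _ ≤ (q + 1) ^ 7 := Nat.pow_le_pow_right (by omega) (by norm_num)
    omega
  have hqle : q ≤ N := by omega
  have hch : (0 : ℝ) < (N.choose q : ℝ) := by exact_mod_cast Nat.choose_pos hqle
  have hlow := log_choose_ge (N := N) (q := q) (by omega) hqN
  rw [hlogN] at hlow
  have h : (2 : ℝ) * N ^ 2 * (q + 1) * 2 ^ (q.choose 2) ≤ (N.choose q : ℝ) := by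
    refine (Real.log_le_log_iff (by positivity) hch).1 ?_
    rw [Real.log_mul (by positivity) (by positivity), Real.log_mul (by positivity) (by positivity),
      Real.log_mul (by norm_num) (by positivity), Real.log_pow, Real.log_pow, hlogN,
      Nat.cast_choose_two, ← hc]
    refine le_trans ?_ hlow
    -- the defect `D = 2 n - q`
    obtain ⟨D, hD⟩ : ∃ D : ℝ, D = 2 * n - q := ⟨_, rfl⟩
    have hD1 : 2 * l - 2 + 3 * c + 2 * w ≤ D * c := by rw [hD]; linarith
    have hD2 : D * c < 2 * l - 2 + 4 * c + 2 * w := by rw [hD]; linarith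
    have hD0 : 0 ≤ D := by rw [hD]; linarith
    have hx : D / (2 * n) ≤ l + c - Real.log q := by
      have h := Real.log_le_sub_one_of_pos (show 0 < (q : ℝ) / (n * 2) by positivity)
      rw [Real.log_div hq0.ne' (by positivity), Real.log_mul (by linarith) (by norm_num), ← hl,
        ← hc] at h
      have e : D / (2 * n) = 1 - (q : ℝ) / (n * 2) := by rw [hD]; field_simp
      rw [e]
      linarith
    have hb : c + w + D / (2 * n) ≤ n * c - Real.log q + 1 - ((q : ℝ) - 1) / 2 * c := by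
      have e : (q : ℝ) = 2 * n - D := by rw [hD]; ring
      have e2 : ((q : ℝ) - 1) / 2 * c = n * c - D * c / 2 - c / 2 := by rw [e]; ring
      rw [e2]
      linarith
    have hb2 := mul_le_mul_of_nonneg_left hb hq0.le
    have hD3 : c + w + D / (2 * n) ≤ 1 := by
      have hD4 : D ≤ n * 0.3 := by
        have : D * c ≤ (n * 0.3) * c := by nlinarith
        exact le_of_mul_le_mul_right this hc0
      have hD5 : D / (2 * n) ≤ 0.15 := by
        rw [div_le_iff₀ (by positivity)]; linarith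
      linarith
    have hb3 : 2 * n * c + 3 * l ≤ (q : ℝ) * (c + w + D / (2 * n)) := by
      have e : (q : ℝ) = 2 * n - D := by rw [hD]; ring
      have e2 : (q : ℝ) * (c + w + D / (2 * n)) =
          2 * n * c + 2 * n * w + D * (1 - (c + w + D / (2 * n))) := by
        rw [e]; field_simp; ring
      rw [e2, hwn]
      have := mul_nonneg hD0 (show 0 ≤ 1 - (c + w + D / (2 * n)) by linarith)
      linarith
    push_cast
    nlinarith
  exact_mod_cast h

theorem upper_fact (hN : 2 ^ 50 ≤ N) {q : ℕ} (h : f N + 2 + eta N ≤ q) :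
    2 * ((N.choose q : ℝ) / 2 ^ (q.choose 2)) < 1 := by
  obtain ⟨n, l, hn, hlogN, hl, hl1, hl2, hf, he⟩ := base_facts hN
  have c1 := Real.log_two_gt_d9
  have c2 := Real.log_two_lt_d9
  set c := Real.log 2 with hc
  have hc0 : 0 < c := by linarith
  have hl0 : 0 < l := by linarith
  have hn0 : 0 < n := by linarith
  have hNr : (2 : ℝ) ^ 50 ≤ (N : ℝ) := by exact_mod_cast hN
  have hN0 : (0 : ℝ) < N := lt_of_lt_of_le (by positivity) hNr
  obtain ⟨w, hw⟩ : ∃ w : ℝ, 2 * w = eta N * c := ⟨eta N * c / 2, by ring⟩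
  have hwn : 2 * n * w = 3 * l := by rw [← he, ← hw]; ring
  have hw0 : 0 < w := by
    by_contra hneg
    have : n * w ≤ 0 := mul_nonpos_of_nonneg_of_nonpos hn0.le (not_lt.1 hneg)
    linarith
  have q1 : 2 * n * c - 2 * l + 2 - c + 2 * w ≤ (q : ℝ) * c := by nlinarith
  have q4 : (60 : ℝ) ≤ q := by
    have : (60 : ℝ) * c ≤ q * c := by nlinarith
    exact le_of_mul_le_mul_right this hc0
  have hq60 : 60 ≤ q := by exact_mod_cast q4
  have hq0 : (0 : ℝ) < q := by linarith
  have hfac : (0 : ℝ) < (q.factorial : ℝ) := by exact_mod_cast Nat.factorial_pos q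
  have h1 : (N.choose q : ℝ) ≤ (N : ℝ) ^ q / q.factorial := Nat.choose_le_pow_div q N
  have h2 := log_fact_ge q (by omega)
  -- the logarithm of `q / (2 n)`
  have h3 : (q : ℝ) - 2 * n ≤ q * (Real.log q - l - c) := by
    have h := Real.log_le_sub_one_of_pos (show 0 < n * 2 / (q : ℝ) by positivity)
    rw [Real.log_div (by positivity) hq0.ne', Real.log_mul (by linarith) (by norm_num), ← hl,
      ← hc] at h
    have h' := mul_le_mul_of_nonneg_left h hq0.le
    have e : (q : ℝ) * (n * 2 / q - 1) = 2 * n - q := by field_simp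
    rw [e] at h'
    linarith
  have h4 : c < (q : ℝ) - 2 * n + q * w := by
    have cc2 : c * c ≤ 0.4805 := by nlinarith
    have hA := mul_le_mul_of_nonneg_right q1 (show (0 : ℝ) ≤ 1 + w by linarith)
    have e1 : (2 * n * c - 2 * l + 2 - c + 2 * w) * (1 + w) - 2 * n * c =
        c * (2 * n * w) - 2 * l + 2 - c + (4 - c) * w + 2 * w * w - 2 * l * w := by ring
    rw [hwn] at e1
    -- multiply by `n`
    have hB : -3 ≤ n * (3 * c - 2) + 3 / 2 * (4 - c) - 3 * l := by nlinarith
    have hlB : -3 * l ≤ (n * (3 * c - 2) + 3 / 2 * (4 - c) - 3 * l) * l :=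
      mul_le_mul_of_nonneg_right hB hl0.le
    have hE : 0 < n * (c * (3 * l) - 2 * l + 2 - c + (4 - c) * w + 2 * w * w - 2 * l * w -
        c * c) := by
      have e2 : n * (c * (3 * l) - 2 * l + 2 - c + (4 - c) * w + 2 * w * w - 2 * l * w -
          c * c) = n * l * (3 * c - 2) + (4 - c) / 2 * (2 * n * w) - l * (2 * n * w) +
          n * (2 - c - c * c) + 2 * n * (w * w) := by ring
      rw [e2, hwn]
      have e3 : 0 ≤ 2 * n * (w * w) := by positivity
      have e4 : n * 0.82 ≤ n * (2 - c - c * c) :=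
        mul_le_mul_of_nonneg_left (by linarith) hn0.le
      have e5 : n * l * (3 * c - 2) + (4 - c) / 2 * (3 * l) - l * (3 * l) =
          (n * (3 * c - 2) + 3 / 2 * (4 - c) - 3 * l) * l := by ring
      linarith
    have hE2 := pos_of_mul_pos_of_pos_left' hn0 hE
    have : c * c < ((q : ℝ) - 2 * n + q * w) * c := by
      have e3 : ((q : ℝ) - 2 * n + q * w) * c = (q : ℝ) * c * (1 + w) - 2 * n * c := by ring
      rw [e3]
      linarith
    exact lt_of_mul_lt_mul_right this hc0.le
  have key : 2 * ((N : ℝ) ^ q / q.factorial) < 2 ^ (q.choose 2) := by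
    refine (Real.log_lt_log_iff (by positivity) (by positivity)).1 ?_
    rw [Real.log_mul (by norm_num) (by positivity), Real.log_div (by positivity) hfac.ne',
      Real.log_pow, Real.log_pow, hlogN, Nat.cast_choose_two, ← hc]
    have hb : Real.log q - l - c + w ≤ ((q : ℝ) - 1) / 2 * c - n * c + Real.log q - 1 := by
      have e : ((q : ℝ) - 1) / 2 * c = (q : ℝ) * c / 2 - c / 2 := by ring
      rw [e]
      linarith
    have hb2 := mul_le_mul_of_nonneg_left hb hq0.le
    nlinarith
  rw [mul_div_assoc', div_lt_one (by positivity)]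
  exact lt_of_le_of_lt (mul_le_mul_of_nonneg_left h1 (by norm_num)) key

end

end Pool.Agent.Y812.CG
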