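import Pool.Agent.Helper40.AlphaAsym
import Pool.Agent.Y812.CG.Log

/-!
The sharp estimate of the pair sum for large `q`.
-/

set_option autoImplicit false

namespace Pool.Agent.Y812.CG

open Finset Real Pool.Agent.Helper40.Asy

lemma choose_desc (N q s : ℕ) (hs : s ≤ q) (hN : q ≤ N) :
    (N - q).choose (q - s) * (N - q) ^ s ≤ N.choose q * q.descFactorial s := by
  have h1 : (N - q).choose (q - s) * (q - s).factorial = (N - q).descFactorial (q - s) := by
    rw [mul_comm, ← Nat.descFactorial_eq_factorial_mul_choose]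
  have h2 : N.choose q * q.factorial = N.descFactorial q := by
    rw [mul_comm, ← Nat.descFactorial_eq_factorial_mul_choose]
  have h3 : (N - q) ^ s * (N - q).descFactorial (q - s) ≤ N.descFactorial q := by
    rw [← Nat.descFactorial_mul_descFactorial hs (n := N), mul_comm]
    refine Nat.mul_le_mul (Nat.descFactorial_le _ (by omega)) ?_
    refine le_trans (Nat.pow_le_pow_left (by omega) s) (Nat.pow_sub_le_descFactorial N s)
  have h5 : ((N - q).choose (q - s) * (N - q) ^ s) * (q - s).factorial ≤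
      (N.choose q * q.descFactorial s) * (q - s).factorial := by
    calc ((N - q).choose (q - s) * (N - q) ^ s) * (q - s).factorial
        = (N - q) ^ s * ((N - q).choose (q - s) * (q - s).factorial) := by ring
      _ = (N - q) ^ s * (N - q).descFactorial (q - s) := by rw [h1]
      _ ≤ N.descFactorial q := h3
      _ = N.choose q * q.factorial := h2.symm
      _ = N.choose q * ((q - s).factorial * q.descFactorial s) := by
          rw [Nat.factorial_mul_descFactorial hs]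
      _ = _ := by ring
  exact Nat.le_of_mul_le_mul_right h5 (Nat.factorial_pos _)

lemma ratio_desc (N q s : ℕ) (hs : s ≤ q) (hN : 2 * q ^ 2 ≤ N) (hq : 1 ≤ q) :
    ((N - q).choose (q - s) : ℝ) * (N : ℝ) ^ s ≤
      2 * ((N.choose q : ℝ) * (q.descFactorial s : ℝ)) := by
  have hqN : q ≤ N := by nlinarith
  have h1 : (((N - q).choose (q - s) : ℕ) : ℝ) * ((N - q : ℕ) : ℝ) ^ s ≤
      ((N.choose q : ℕ) : ℝ) * ((q.descFactorial s : ℕ) : ℝ) := by
    exact_mod_cast choose_desc N q s hs hqN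
  have h2 := pow_two_bound N q s hs hN hq
  calc ((N - q).choose (q - s) : ℝ) * (N : ℝ) ^ s
      ≤ ((N - q).choose (q - s) : ℝ) * (2 * ((N - q : ℕ) : ℝ) ^ s) :=
        mul_le_mul_of_nonneg_left h2 (Nat.cast_nonneg _)
    _ = 2 * (((N - q).choose (q - s) : ℝ) * ((N - q : ℕ) : ℝ) ^ s) := by ring
    _ ≤ _ := mul_le_mul_of_nonneg_left h1 (by norm_num)

/-- conditions on a large `q` -/
structure Big2 (D δ Λ q : ℝ) : Prop where
  hD : 0 < D
  hδ : 0 < δ
  hΛ : 0 ≤ Λ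
  hq : 16 ≤ q
  a1 : log 2 + 11 * Λ + 9 * D + 1 ≤ D * q / 2
  a2 : Λ + 3 * D + 1 ≤ D * q / 4
  b1 : 9 * Λ + 12 * (Λ + D) ^ 2 / D + D + 2 * δ ≤ δ * q / 4

lemma expoA2 {D δ Λ q s : ℝ} (h : Big2 D δ Λ q) (hs3 : 3 ≤ s) (hs : s ≤ q / 4) :
    log 2 + 8 * Λ + s * Λ - (s - 2) * (D * q / 2 + (D / 2 - 1 + δ)) + D * s ^ 2 ≤ 0 := by
  obtain ⟨hD, hδ, hΛ, hq, a1, a2, b1⟩ := h
  obtain ⟨r, hr⟩ : ∃ r : ℝ, r = s - 3 := ⟨_, rfl⟩
  have hr0 : 0 ≤ r := by linarith
  have hs' : s = r + 3 := by rw [hr]; ring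
  rw [hs'] at hs ⊢
  have e1 : 0 ≤ r * (D * q / 4 - (Λ + 3 * D + 1)) := mul_nonneg hr0 (by linarith)
  have e2 : 0 ≤ D * r * (q / 4 - 3 - r) := by
    refine mul_nonneg (mul_nonneg hD.le hr0) (by linarith)
  have e3 : 0 ≤ (r + 1) * (D / 2 + δ) := by positivity
  nlinarith

lemma harm_two {n m lam : ℝ} (hn : 0 < n) (hm : 0 < m) :
    2 * (n * m) / (n + m) ≤ 2 * (lam ^ 2 * n + (1 - lam) ^ 2 * m) := by
  rw [div_le_iff₀ (by positivity)]
  nlinarith [sq_nonneg (lam * n - (1 - lam) * m)]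

lemma harm_q {q s : ℝ} (hs3 : 3 ≤ s) (hs : q / 4 ≤ s) (hsq : s ≤ q) :
    2 * ((q * (q - 1) / 2) * (s * (s - 1) / 2)) / (q * (q - 1) / 2 + s * (s - 1) / 2) ≤
      q * s / 2 - s / 2 - 7 / 64 * (q - s) ^ 2 + (q - s) / 8 := by
  have hq0 : 0 < q := by linarith
  obtain ⟨j, hj⟩ : ∃ j : ℝ, j = q - s := ⟨_, rfl⟩
  have hj0 : 0 ≤ j := by linarith
  have hj1 : j ≤ 3 / 4 * q := by linarith
  have hs' : s = q - j := by rw [hj]; ring
  have hn : 0 < q * (q - 1) / 2 := by nlinarith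
  have hm : 0 < s * (s - 1) / 2 := by nlinarith
  refine (harm_two (lam := 1 / 2 - j / (2 * q)) hn hm).trans ?_
  have e : 2 * ((1 / 2 - j / (2 * q)) ^ 2 * (q * (q - 1) / 2) +
      (1 - (1 / 2 - j / (2 * q))) ^ 2 * (s * (s - 1) / 2)) =
      q * s / 2 - s / 2 + (j ^ 2 / 4 - j / 4) - (j ^ 2 - j ^ 2 * (j + 1) / (2 * q)) +
      j ^ 2 / (2 * q ^ 2) * (q ^ 2 - q * j - q + (j ^ 2 + j) / 2) := by
    rw [hs']
    field_simp
    ring
  rw [e, ← hj]
  have e1 : j ^ 2 * (j + 1) / (2 * q) = j ^ 3 / (2 * q) + j ^ 2 / (2 * q) := by ring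
  have e2 : j ^ 2 / (2 * q ^ 2) * (q ^ 2 - q * j - q + (j ^ 2 + j) / 2) =
      j ^ 2 / 2 - j ^ 3 / (2 * q) - j ^ 2 / (2 * q) + j ^ 4 / (4 * q ^ 2) + j ^ 3 / (4 * q ^ 2) := by
    field_simp
    ring
  have b1 : j ^ 4 / (4 * q ^ 2) ≤ 9 / 64 * j ^ 2 := by
    rw [div_le_iff₀ (by positivity)]
    have : j ^ 2 ≤ (3 / 4 * q) ^ 2 := pow_le_pow_left₀ hj0 hj1 2
    have := mul_le_mul_of_nonneg_left this (sq_nonneg j)
    nlinarith
  have b2 : j ^ 3 / (4 * q ^ 2) ≤ 3 / 8 * j := by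
    rw [div_le_iff₀ (by positivity)]
    have : j ^ 2 ≤ (3 / 4 * q) ^ 2 := pow_le_pow_left₀ hj0 hj1 2
    have := mul_le_mul_of_nonneg_left this hj0
    nlinarith [mul_nonneg hj0 (sq_nonneg q)]
  rw [e1, e2]
  linarith

lemma expoB2 {D δ Λ q s : ℝ} (h : Big2 D δ Λ q) (hs3 : 3 ≤ s) (hs : q / 4 ≤ s) (hsq : s ≤ q) :
    log 2 + 6 * Λ + (2 * (q - s) * Λ + (1 + Λ + s * Λ - s)) +
      D * (q * s / 2 - s / 2 - 7 / 64 * (q - s) ^ 2 + (q - s) / 8) ≤
      (s - 2) * (D * q / 2 + Λ + (D / 2 - 1 + δ)) := by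
  obtain ⟨hD, hδ, hΛ, hq, a1, a2, b1⟩ := h
  obtain ⟨j, hj⟩ : ∃ j : ℝ, j = q - s := ⟨_, rfl⟩
  have hj0 : 0 ≤ j := by linarith
  have hs' : s = q - j := by rw [hj]; ring
  have hlog2 : Real.log 2 < 1 := by
    have := Real.log_two_lt_d9
    linarith
  have e3 : 2 * j * (Λ + D) - D * j ^ 2 * (7 / 64) ≤ 12 * (Λ + D) ^ 2 / D := by
    rw [le_div_iff₀ hD]
    nlinarith [sq_nonneg (D * j * (7 / 64) - (Λ + D)), sq_nonneg (Λ + D)]
  have e4 : δ * q / 4 ≤ δ * s := by nlinarith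
  have e5 : 0 ≤ D * j := by positivity
  rw [← hj]
  have key : log 2 + 6 * Λ + (2 * j * Λ + (1 + Λ + s * Λ - s)) +
      D * (q * s / 2 - s / 2 - 7 / 64 * j ^ 2 + j / 8) -
      (s - 2) * (D * q / 2 + Λ + (D / 2 - 1 + δ)) =
      log 2 - 1 + 9 * Λ + (2 * j * (Λ + D) - D * j ^ 2 * (7 / 64)) - 7 / 8 * (D * j) + D + 2 * δ -
      δ * s := by
    rw [hs']
    ring
  linarith

/-- collecting the factors -/
lemma finish {x W E : ℝ} {N q s : ℕ} (hq : 4 ≤ q) (hN0 : 0 < N)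
    (hr : ((N - q).choose (q - s) : ℝ) * (N : ℝ) ^ s ≤ 2 * ((N.choose q : ℝ) * W))
    (hx : (q.choose s : ℝ) * W ≤ exp x)
    (hexp : log 2 + 6 * log q + x + E ≤ (s - 2) * log N) :
    (N : ℝ) ^ 2 * ((q.choose 2 : ℝ) + 1) ^ 2 *
      ((q.choose s : ℝ) * ((N - q).choose (q - s) : ℝ) * exp E) ≤
      (N.choose q : ℝ) / (q : ℝ) ^ 2 := by
  have hq4 : (4 : ℝ) ≤ q := by exact_mod_cast hq
  have hq0 : (0 : ℝ) < q := by linarith
  have hNr : (0 : ℝ) < N := by exact_mod_cast hN0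
  have cq : ((q.choose 2 : ℕ) : ℝ) = (q : ℝ) * (q - 1) / 2 := Nat.cast_choose_two ℝ q
  set n : ℝ := ((q.choose 2 : ℕ) : ℝ) with hn
  have hnpos : 0 < n := by rw [cq]; nlinarith
  have hn1 : n + 1 ≤ (q : ℝ) ^ 2 := by rw [cq]; nlinarith
  have hXpos : (0 : ℝ) ≤ (N.choose q : ℝ) := Nat.cast_nonneg _
  have hE := (exp_pos E).le
  rw [le_div_iff₀ (by positivity)]
  have hNs : (0 : ℝ) < (N : ℝ) ^ s := by positivity
  refine le_of_mul_le_mul_right ?_ hNs
  have hcs : (0 : ℝ) ≤ (q.choose s : ℝ) := Nat.cast_nonneg _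
  calc (N : ℝ) ^ 2 * (n + 1) ^ 2 * ((q.choose s : ℝ) * ((N - q).choose (q - s) : ℝ) *
        exp E) * (q : ℝ) ^ 2 * (N : ℝ) ^ s
      = ((n + 1) ^ 2 * ((N : ℝ) ^ 2 * (q : ℝ) ^ 2 * (q.choose s : ℝ) * exp E)) *
        (((N - q).choose (q - s) : ℝ) * (N : ℝ) ^ s) := by ring
    _ ≤ (((q : ℝ) ^ 2) ^ 2 * ((N : ℝ) ^ 2 * (q : ℝ) ^ 2 * (q.choose s : ℝ) * exp E)) *
        (2 * ((N.choose q : ℝ) * W)) := by
        refine mul_le_mul ?_ hr (by positivity) (by positivity)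
        refine mul_le_mul_of_nonneg_right ?_ (by positivity)
        exact pow_le_pow_left₀ (by linarith) hn1 2
    _ = ((N.choose q : ℝ) * (2 * (N : ℝ) ^ 2 * (q : ℝ) ^ 6 * exp E)) *
        ((q.choose s : ℝ) * W) := by ring
    _ ≤ ((N.choose q : ℝ) * (2 * (N : ℝ) ^ 2 * (q : ℝ) ^ 6 * exp E)) * exp x :=
        mul_le_mul_of_nonneg_left hx (by positivity)
    _ = (N.choose q : ℝ) * (2 * (N : ℝ) ^ 2 * (q : ℝ) ^ 6 * exp E * exp x) := by ring
    _ ≤ (N.choose q : ℝ) * (N : ℝ) ^ s := by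
        refine mul_le_mul_of_nonneg_left ?_ hXpos
        have t1 : (N : ℝ) ^ 2 = exp (2 * log N) := by
          have := exp_log_aux hNr 2
          push_cast at this
          exact this.symm
        have t2 : (N : ℝ) ^ s = exp (s * log N) := (exp_log_aux hNr s).symm
        have t3 : (q : ℝ) ^ 6 = exp (6 * log q) := by
          have := exp_log_aux hq0 6
          push_cast at this
          exact this.symm
        rw [t1, t2, t3]
        calc 2 * exp (2 * log N) * exp (6 * log q) * exp E * exp x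
            = exp (log 2) * exp (2 * log N) * exp (6 * log q) * exp E * exp x := by
              rw [exp_log (by norm_num : (0 : ℝ) < 2)]
          _ = exp (log 2 + 2 * log N + 6 * log q + E + x) := by
              rw [← exp_add, ← exp_add, ← exp_add, ← exp_add]
          _ ≤ _ := exp_le_exp.2 (by linarith)

/-- the bound of one term of the pair sum -/
theorem term_bound2 {D δ : ℝ} {N q s : ℕ} (hB : Big2 D δ (log q) q) (hs3 : 3 ≤ s) (hsq : s ≤ q)
    (hN : 2 * q ^ 2 ≤ N) (hL : D * q / 2 + log q + (D / 2 - 1 + δ) ≤ log N) :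
    (N : ℝ) ^ 2 * ((q.choose 2 : ℝ) + 1) ^ 2 *
      ((q.choose s : ℝ) * ((N - q).choose (q - s) : ℝ) *
        exp (2 * D * ((q.choose 2 : ℝ) * (s.choose 2 : ℝ)) / ((q.choose 2 : ℝ) + (s.choose 2 : ℝ)))) ≤
      (N.choose q : ℝ) / (q : ℝ) ^ 2 := by
  have hD := hB.hD
  have hδ := hB.hδ
  have hq16 : (16 : ℝ) ≤ q := hB.hq
  have hq16' : 16 ≤ q := by exact_mod_cast hq16
  have hq0 : (0 : ℝ) < q := by linarith
  have hs3' : (3 : ℝ) ≤ s := by exact_mod_cast hs3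
  have hs0 : (0 : ℝ) < s := by linarith
  have hsq' : (s : ℝ) ≤ q := by exact_mod_cast hsq
  have hN0 : 0 < N := by nlinarith
  have cq : ((q.choose 2 : ℕ) : ℝ) = (q : ℝ) * (q - 1) / 2 := Nat.cast_choose_two ℝ q
  have cs : ((s.choose 2 : ℕ) : ℝ) = (s : ℝ) * (s - 1) / 2 := Nat.cast_choose_two ℝ s
  have hLs : (s - 2 : ℝ) * (D * q / 2 + log q + (D / 2 - 1 + δ)) ≤ (s - 2) * log N :=
    mul_le_mul_of_nonneg_left hL (by linarith)
  rcases le_or_gt (s : ℝ) (q / 4) with hA | hB'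
  · refine finish (x := s * log q + s * log q) (W := (q : ℝ) ^ s) (by omega) hN0
      (ratio_bound N q s hsq hN (by omega)) ?_ ?_
    · rw [exp_add, exp_log_aux hq0 s]
      refine mul_le_mul_of_nonneg_right ?_ (by positivity)
      exact_mod_cast Nat.choose_le_pow q s
    · have hnpos : (0 : ℝ) < ((q.choose 2 : ℕ) : ℝ) := by rw [cq]; nlinarith
      have hmpos : (0 : ℝ) < ((s.choose 2 : ℕ) : ℝ) := by rw [cs]; nlinarith
      have h1 : 2 * D * (((q.choose 2 : ℕ) : ℝ) * ((s.choose 2 : ℕ) : ℝ)) /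
          (((q.choose 2 : ℕ) : ℝ) + ((s.choose 2 : ℕ) : ℝ)) ≤ D * (s : ℝ) ^ 2 := by
        rw [div_le_iff₀ (by positivity)]
        have h2 : 2 * ((s.choose 2 : ℕ) : ℝ) ≤ (s : ℝ) ^ 2 := by rw [cs]; nlinarith
        have h3 := mul_le_mul_of_nonneg_left h2 (mul_nonneg hD.le hnpos.le)
        have h4 : 0 ≤ D * (s : ℝ) ^ 2 * ((s.choose 2 : ℕ) : ℝ) := by positivity
        nlinarith
      have h5 := expoA2 hB hs3' hA
      nlinarith
  · refine finish (x := 2 * ((q : ℝ) - s) * log q + (1 + log q + s * log q - s))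
      (W := (q.descFactorial s : ℝ)) (by omega) hN0 (ratio_desc N q s hsq hN (by omega)) ?_ ?_
    · have hd : (q.descFactorial s : ℝ) = (s.factorial : ℝ) * (q.choose s : ℝ) := by
        exact_mod_cast Nat.descFactorial_eq_factorial_mul_choose q s
      have hc : (q.choose s : ℝ) ≤ exp (((q : ℝ) - s) * log q) := by
        have h1 : (q.choose s : ℝ) ≤ (q : ℝ) ^ (q - s) := by
          rw [← Nat.choose_symm hsq]
          exact_mod_cast Nat.choose_le_pow q (q - s)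
        have e : ((q : ℝ) - s) = ((q - s : ℕ) : ℝ) := by push_cast [Nat.cast_sub hsq]; ring
        rw [e, exp_log_aux hq0 (q - s)]
        exact h1
      have hf : (s.factorial : ℝ) ≤ exp (1 + log q + s * log q - s) := by
        have h1 := log_fact_le s (by omega)
        have h2 : log (s : ℝ) ≤ log q := Real.log_le_log hs0 hsq'
        have h3 : (0 : ℝ) < (s.factorial : ℝ) := by exact_mod_cast Nat.factorial_pos s
        rw [← Real.log_le_iff_le_exp h3]
        have h4 : (s : ℝ) * log s ≤ s * log q := mul_le_mul_of_nonneg_left h2 hs0.le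
        linarith
      have hcp : (0 : ℝ) ≤ (q.choose s : ℝ) := Nat.cast_nonneg _
      have hfp : (0 : ℝ) ≤ (s.factorial : ℝ) := Nat.cast_nonneg _
      rw [hd]
      calc (q.choose s : ℝ) * ((s.factorial : ℝ) * (q.choose s : ℝ))
          = ((q.choose s : ℝ) * (q.choose s : ℝ)) * (s.factorial : ℝ) := by ring
        _ ≤ (exp (((q : ℝ) - s) * log q) * exp (((q : ℝ) - s) * log q)) *
            exp (1 + log q + s * log q - s) :=
            mul_le_mul (mul_le_mul hc hc hcp (exp_pos _).le) hf hfp (by positivity)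
        _ = _ := by
            rw [← exp_add, ← exp_add]
            congr 1
            ring
    · have h1 := harm_q hs3' hB'.le hsq'
      have h2 := mul_le_mul_of_nonneg_left h1 hD.le
      have h3 := expoB2 hB hs3' hB'.le hsq'
      rw [cq, cs]
      have e : 2 * D * ((q : ℝ) * (q - 1) / 2 * ((s : ℝ) * (s - 1) / 2)) /
          ((q : ℝ) * (q - 1) / 2 + (s : ℝ) * (s - 1) / 2) =
          D * (2 * (((q : ℝ) * (q - 1) / 2) * ((s : ℝ) * (s - 1) / 2)) /
          ((q : ℝ) * (q - 1) / 2 + (s : ℝ) * (s - 1) / 2)) := by ring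
      rw [e]
      linarith

end Pool.Agent.Y812.CG
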