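import Pool.Agent.Helper40.AlphaFinal
import Pool.Agent.Y812.CG.Asy2

/-!
The sharp forms of the two sides of the `α`-clique game (adapted from `Helper40`).
-/

set_option autoImplicit false
set_option linter.unusedVariables false

namespace Pool.Agent.Y812.CG

open Finset Pool.Agent.Helper40.Game Pool.Agent.Helper40.SM Pool.Agent.Helper40.K9
  Pool.Agent.Helper40.CF Pool.Agent.Helper40.Tilt Pool.Agent.Helper40.Hyp
  Pool.Agent.Helper40.BinLow Pool.Agent.Helper40.Asy Pool.Agent.Helper40.AM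

/-- the bound of the pair sum -/
lemma pair_sum2 {α δ : ℝ} (h0 : 1 / 2 < α) (h1 : α < 1) {N q n k : ℕ} (hn : n = q.choose 2)
    (hk : k = ⌈α * n⌉₊) (hB : Big2 (rate (HH α)) δ (Real.log q) q) (hN : 2 * q ^ 2 ≤ N)
    (hL : rate (HH α) * q / 2 + Real.log q + (rate (HH α) / 2 - 1 + δ) ≤ Real.log N) :
    ∑ p ∈ prs (fam N q) edg 2,
      w0 n k (edg p.1 ∩ edg p.2).card (th n (HH α) (edg p.1 ∩ edg p.2).card) ≤
    2 * (N.choose q : ℝ) ^ 2 * Real.exp (-(2 * (n * rate (HH α)))) /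
      ((q : ℝ) * (N : ℝ) ^ 2 * ((n : ℝ) + 1) ^ 2) := by
  set D := rate (HH α) with hD
  have hD0 : 0 < D := rate_pos h0 h1
  have hH := (HH_pos h0 h1).le
  have hq4 : (4:ℝ) ≤ q := le_trans (by norm_num) hB.hq
  have hq4' : 4 ≤ q := by exact_mod_cast hq4
  have hq0 : (0:ℝ) < q := by linarith
  have hnpos : 0 < n := by
    rw [hn]; exact Nat.choose_pos (by omega)
  have hn' : (0:ℝ) < n := by exact_mod_cast hnpos
  have hN0 : (0:ℝ) < N := by
    have : 0 < N := by nlinarith
    exact_mod_cast this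
  have hkn : (n : ℝ) * Real.tanh (HH α) ≤ 2 * (k:ℝ) - n := by
    rw [tanh_HH h0 h1]
    have : α * n ≤ k := by rw [hk]; exact Nat.le_ceil _
    linarith
  set g : ℕ → ℝ := fun s => if 2 ≤ s.choose 2 ∧ s ≤ q then
    Real.exp (-(2 * (n:ℝ) ^ 2 * D / (n + (s.choose 2 : ℕ)))) else 0 with hg
  have hg0 : ∀ s, 0 ≤ g s := by
    intro s
    rw [hg]
    simp only
    split_ifs <;> positivity
  have step1 : ∑ p ∈ prs (fam N q) edg 2,
      w0 n k (edg p.1 ∩ edg p.2).card (th n (HH α) (edg p.1 ∩ edg p.2).card) ≤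
      ∑ p ∈ fam N q ×ˢ fam N q, g (p.1 ∩ p.2).card := by
    unfold prs
    rw [Finset.sum_filter]
    refine Finset.sum_le_sum (fun p hp => ?_)
    rw [mem_product, mem_fam, mem_fam] at hp
    rw [edg_inter, card_edg]
    have hsq : (p.1 ∩ p.2).card ≤ q := by
      rw [← hp.1]; exact Finset.card_le_card inter_subset_left
    split_ifs with h
    · rw [hg]
      simp only
      rw [if_pos ⟨h, hsq⟩]
      have hm : (p.1 ∩ p.2).card.choose 2 ≤ n := by rw [hn]; exact choose_two_mono hsq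
      have := w_bound (k := (k:ℝ)) hnpos hm hH hkn
      exact this
    · exact hg0 _
  refine step1.trans ((count_pairs q g hg0).trans ?_)
  have step2 : ∀ s ∈ range (q + 1),
      (q.choose s : ℝ) * ((N - q).choose (q - s) : ℝ) * g s ≤
        (N.choose q : ℝ) * Real.exp (-(2 * (n * D))) /
          ((q:ℝ) ^ 2 * ((N:ℝ) ^ 2 * ((n:ℝ) + 1) ^ 2)) := by
    intro s hs
    rw [mem_range] at hs
    rw [hg]
    simp only
    split_ifs with h
    · have hs3 := three_le h.1
      have hsq : s ≤ q := h.2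
      have ht := term_bound2 hB hs3 hsq hN hL
      rw [← hn] at ht
      have hmpos : (0:ℝ) < (s.choose 2 : ℕ) := by
        have : 0 < s.choose 2 := Nat.choose_pos (by omega)
        exact_mod_cast this
      have e1 : Real.exp (-(2 * (n:ℝ) ^ 2 * D / (n + (s.choose 2 : ℕ)))) =
          Real.exp (-(2 * (n * D))) *
            Real.exp (2 * D * ((n:ℝ) * (s.choose 2 : ℕ)) / ((n:ℝ) + (s.choose 2 : ℕ))) := by
        rw [← Real.exp_add]
        congr 1
        field_simp
        ring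
      rw [e1, le_div_iff₀ (by positivity)]
      rw [le_div_iff₀ (by positivity)] at ht
      have hexp := (Real.exp_pos (-(2 * (n * D)))).le
      calc (q.choose s : ℝ) * ((N - q).choose (q - s) : ℝ) * (Real.exp (-(2 * (n * D))) *
            Real.exp (2 * D * ((n:ℝ) * (s.choose 2 : ℕ)) / ((n:ℝ) + (s.choose 2 : ℕ)))) *
            ((q:ℝ) ^ 2 * ((N:ℝ) ^ 2 * ((n:ℝ) + 1) ^ 2))
          = ((N:ℝ) ^ 2 * ((n:ℝ) + 1) ^ 2 * ((q.choose s : ℝ) * ((N - q).choose (q - s) : ℝ) *
            Real.exp (2 * D * ((n:ℝ) * (s.choose 2 : ℕ)) / ((n:ℝ) + (s.choose 2 : ℕ)))) *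
            (q:ℝ) ^ 2) * Real.exp (-(2 * (n * D))) := by ring
        _ ≤ (N.choose q : ℝ) * Real.exp (-(2 * (n * D))) :=
            mul_le_mul_of_nonneg_right ht hexp
    · rw [mul_zero]; positivity
  calc (N.choose q : ℝ) * ∑ s ∈ range (q + 1),
        (q.choose s : ℝ) * ((N - q).choose (q - s) : ℝ) * g s
      ≤ (N.choose q : ℝ) * ∑ s ∈ range (q + 1), (N.choose q : ℝ) * Real.exp (-(2 * (n * D))) /
          ((q:ℝ) ^ 2 * ((N:ℝ) ^ 2 * ((n:ℝ) + 1) ^ 2)) :=
        mul_le_mul_of_nonneg_left (Finset.sum_le_sum step2) (Nat.cast_nonneg _)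
    _ = (N.choose q : ℝ) * (((q:ℝ) + 1) * ((N.choose q : ℝ) * Real.exp (-(2 * (n * D))) /
          ((q:ℝ) ^ 2 * ((N:ℝ) ^ 2 * ((n:ℝ) + 1) ^ 2)))) := by
        rw [Finset.sum_const, card_range, nsmul_eq_mul]
        push_cast
        ring
    _ ≤ (N.choose q : ℝ) * ((2 * (q:ℝ)) * ((N.choose q : ℝ) * Real.exp (-(2 * (n * D))) /
          ((q:ℝ) ^ 2 * ((N:ℝ) ^ 2 * ((n:ℝ) + 1) ^ 2)))) := by
        refine mul_le_mul_of_nonneg_left ?_ (Nat.cast_nonneg _)
        refine mul_le_mul_of_nonneg_right (by linarith) (by positivity)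
    _ = _ := by
        field_simp

/-- Maker's strategy -/
theorem maker_q2 {α δ : ℝ} (h0 : 1 / 2 < α) (h1 : α < 1) {N q n k : ℕ} (hn : n = q.choose 2)
    (hk : k = ⌈α * n⌉₊) (hB : Big2 (rate (HH α)) δ (Real.log q) q) (hN : 2 * q ^ 2 ≤ N)
    (hL : rate (HH α) * q / 2 + Real.log q + (rate (HH α) / 2 - 1 + δ) ≤ Real.log N)
    (hα : 1 ≤ α * n) (hbig : 2 < (2 * α - 1) ^ 2 * ((1 - α) / (2 * α)) ^ 2 * q)
    [Inhabited (Sym2 (Fin N))] :
    ∃ σ : List (Sym2 (Fin N)) → Sym2 (Fin N), Legal (EE N) 0 σ ∧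
      ∀ h : List (Sym2 (Fin N)), h.Nodup → (∀ e ∈ h, e ∈ EE N) → (∀ e ∈ EE N, e ∈ h) →
      Cons σ 0 h → ∃ i ∈ fam N q, k ≤ (edg i ∩ cls 0 h).card := by
  set D := rate (HH α) with hD
  set ε := 2 * α - 1 with hε
  set c1 := (1 - α) / (2 * α) with hc1
  have hε0 : 0 < ε := by rw [hε]; linarith
  have hc0 : 0 < c1 := by rw [hc1]; exact div_pos (by linarith) (by linarith)
  have hq4 : (4:ℝ) ≤ q := le_trans (by norm_num) hB.hq
  have hq4' : 4 ≤ q := by exact_mod_cast hq4
  have hq0 : (0:ℝ) < q := by linarith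
  have hnpos : 0 < n := by rw [hn]; exact Nat.choose_pos (by omega)
  have hn' : (0:ℝ) < n := by exact_mod_cast hnpos
  have hNpos : 0 < N := by nlinarith
  have hN0 : (0:ℝ) < N := by exact_mod_cast hNpos
  have hqN : q ≤ N := by nlinarith
  have hX : (0:ℝ) < (N.choose q : ℝ) := by exact_mod_cast Nat.choose_pos hqN
  set X := (N.choose q : ℝ) with hXdef
  have hG := G_lower h0 h1 hk hα
  have hG1 : c1 / ((n:ℝ) + 1) * Real.exp (-(n * D)) ≤ G n k := by
    have e : (1 - α) / (2 * α * ((n:ℝ) + 1)) = c1 / ((n:ℝ) + 1) := by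
      rw [hc1, div_div]
    rw [← e]; exact hG
  have hexp := Real.exp_pos (-(n * D))
  have hG0 : 0 < G n k := lt_of_lt_of_le (by positivity) hG1
  set g0 := G n k with hg0
  have hE1 : ((EE N).card : ℝ) ≤ (N:ℝ) ^ 2 / 2 := by
    rw [card_EE, Nat.cast_choose_two]
    nlinarith
  have hE0 : (0:ℝ) < ((EE N).card : ℝ) := by
    rw [card_EE]
    have : 0 < N.choose 2 := Nat.choose_pos (by omega)
    exact_mod_cast this
  have hU := pair_sum2 h0 h1 hn hk hB hN hL
  rw [← hXdef, ← hD] at hU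
  set U := ∑ p ∈ prs (fam N q) edg 2,
      w0 n k (edg p.1 ∩ edg p.2).card (th n (HH α) (edg p.1 ∩ edg p.2).card) with hUdef
  set l := ((EE N).card : ℝ) / (2 * ε ^ 2 * (X * g0)) with hl
  have hl0 : 0 < l := by positivity
  refine maker_alpha (EE N) (fam N q) edg (n := n) (k := k) (hh := th n (HH α)) (l := l)
    (ε := ε) (fun i _ => edg_subset_EE i) hl0 hε0 (fun i hi => by rw [card_edg, mem_fam.1 hi, hn])
    (fun m => by
      unfold th
      have := (HH_pos h0 h1).le
      positivity)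
    (fun m hm => by
      have := tilt_ge hnpos hm (HH_pos h0 h1).le
      rw [tanh_HH h0 h1] at this
      exact this) ?_
  rw [card_fam, ← hXdef, ← hUdef]
  have e1 : ((EE N).card : ℝ) / (8 * ε ^ 2 * l) = X * g0 / 4 := by
    rw [hl]
    field_simp
    ring
  rw [e1]
  -- second term
  have e2 : l * U ≤ X * g0 / 4 := by
    have hsq : (c1 / ((n:ℝ) + 1) * Real.exp (-(n * D))) ^ 2 ≤ g0 ^ 2 :=
      pow_le_pow_left₀ (by positivity) hG1 2
    have e3 : (c1 / ((n:ℝ) + 1) * Real.exp (-(n * D))) ^ 2 =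
        c1 ^ 2 * Real.exp (-(2 * (n * D))) / ((n:ℝ) + 1) ^ 2 := by
      rw [mul_pow, div_pow, ← Real.exp_nat_mul]
      have : ((2:ℕ):ℝ) * -(n * D) = -(2 * (n * D)) := by push_cast; ring
      rw [this]; ring
    rw [e3] at hsq
    have hexp2 := Real.exp_pos (-(2 * (n * D)))
    calc l * U ≤ l * (2 * X ^ 2 * Real.exp (-(2 * (n * D))) /
          ((q : ℝ) * (N : ℝ) ^ 2 * ((n : ℝ) + 1) ^ 2)) := mul_le_mul_of_nonneg_left hU hl0.le
      _ ≤ ((N:ℝ) ^ 2 / 2) / (2 * ε ^ 2 * (X * g0)) * (2 * X ^ 2 * Real.exp (-(2 * (n * D))) /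
          ((q : ℝ) * (N : ℝ) ^ 2 * ((n : ℝ) + 1) ^ 2)) := by
          refine mul_le_mul_of_nonneg_right ?_ (by positivity)
          rw [hl]
          exact div_le_div_of_nonneg_right hE1 (by positivity)
      _ = X / (2 * ε ^ 2 * q * g0 * c1 ^ 2) *
          (c1 ^ 2 * Real.exp (-(2 * (n * D))) / ((n:ℝ) + 1) ^ 2) := by
          field_simp
      _ ≤ X / (2 * ε ^ 2 * q * g0 * c1 ^ 2) * g0 ^ 2 :=
          mul_le_mul_of_nonneg_left hsq (by positivity)
      _ = X * g0 / (2 * (ε ^ 2 * c1 ^ 2 * q)) := by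
          field_simp
      _ ≤ X * g0 / 4 := by
          refine div_le_div_of_nonneg_left (by positivity) (by norm_num) ?_
          linarith
  have hXg : 0 < X * g0 := by positivity
  linarith

/-- Breaker's strategy -/
theorem breaker_q2 {α δ : ℝ} (h0 : 1 / 2 < α) (h1 : α < 1) {N q n k : ℕ} (hn : n = q.choose 2)
    (hk : k = ⌈α * n⌉₊) (hN : 2 ≤ N) (hq : 1 ≤ q)
    (hδ : 1 ≤ δ * q) (hL : Real.log N + 1 + rate (HH α) / 2 + δ ≤ Real.log q + rate (HH α) * q / 2)
    [Inhabited (Sym2 (Fin N))] :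
    ∃ σ : List (Sym2 (Fin N)) → Sym2 (Fin N), Legal (EE N) 1 σ ∧
      ∀ l : List (Sym2 (Fin N)), l.Nodup → (∀ e ∈ l, e ∈ EE N) → (∀ e ∈ EE N, e ∈ l) →
      Cons σ 1 l → ∀ i ∈ fam N q, (edg i ∩ cls 0 l).card < k := by
  set D := rate (HH α) with hD
  have hNpos : (0:ℝ) < N := by
    have : 0 < N := by omega
    exact_mod_cast this
  have hq0 : (0:ℝ) < q := by exact_mod_cast hq
  have hq1 : (1:ℝ) ≤ q := by exact_mod_cast hq
  refine breaker_alpha (EE N) (fam N q) edg (n := n) (k := k) (h := HH α)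
    (fun i _ => edg_subset_EE i) (HH_pos h0 h1).le ?_
    (fun i hi => by rw [card_edg, mem_fam.1 hi, hn]) ?_
  · rw [← Finset.card_pos, card_EE]
    exact Nat.choose_pos hN
  · have hkn : (n : ℝ) * Real.tanh (HH α) ≤ 2 * (k:ℝ) - n := by
      rw [tanh_HH h0 h1]
      have : α * n ≤ k := by rw [hk]; exact Nat.le_ceil _
      linarith
    have e1 : Real.exp (-(HH α * (2 * (k:ℝ) - n))) * Real.cosh (HH α) ^ n ≤
        Real.exp (-(n * D)) := by
      rw [pow_eq_exp (Real.cosh_pos _), ← Real.exp_add]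
      apply Real.exp_le_exp.2
      have := mul_le_mul_of_nonneg_left hkn (HH_pos h0 h1).le
      rw [hD]
      unfold rate
      nlinarith
    have e2 : (N.choose q : ℝ) ≤ Real.exp (q * (Real.log N + 1 - Real.log q)) := by
      have h2 : (N.choose q : ℝ) ≤ (N:ℝ) ^ q / q.factorial := Nat.choose_le_pow_div q N
      have h3 := Real.pow_div_factorial_le_exp (q:ℝ) hq0.le q
      have hf : (0:ℝ) < q.factorial := by exact_mod_cast Nat.factorial_pos q
      have h4 : (N:ℝ) ^ q / q.factorial = ((q:ℝ) ^ q / q.factorial) * ((N:ℝ) ^ q / (q:ℝ) ^ q) := by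
        field_simp
      have h5 : (N:ℝ) ^ q / (q:ℝ) ^ q = Real.exp (q * (Real.log N - Real.log q)) := by
        rw [pow_eq_exp hNpos, pow_eq_exp hq0, ← Real.exp_sub]
        congr 1; ring
      refine h2.trans ?_
      rw [h4, h5]
      calc (q:ℝ) ^ q / q.factorial * Real.exp (q * (Real.log N - Real.log q))
          ≤ Real.exp q * Real.exp (q * (Real.log N - Real.log q)) :=
            mul_le_mul_of_nonneg_right h3 (Real.exp_pos _).le
        _ = _ := by rw [← Real.exp_add]; congr 1; ring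
    rw [card_fam]
    have hpos1 := (Real.exp_pos (-(HH α * (2 * (k:ℝ) - n)))).le
    have hpos2 := (Real.cosh_pos (HH α)).le
    calc 2 * ((N.choose q : ℝ) * (Real.exp (-(HH α * (2 * (k:ℝ) - n))) * Real.cosh (HH α) ^ n))
        ≤ 2 * (Real.exp (q * (Real.log N + 1 - Real.log q)) * Real.exp (-(n * D))) := by
          refine mul_le_mul_of_nonneg_left ?_ (by norm_num)
          exact mul_le_mul e2 e1 (by positivity) (Real.exp_pos _).le
      _ = Real.exp (Real.log 2 + q * (Real.log N + 1 - Real.log q) + -(n * D)) := by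
          rw [Real.exp_add, Real.exp_add, Real.exp_log (by norm_num)]
          ring
      _ < 1 := by
          refine lt_of_lt_of_eq (Real.exp_lt_exp.2 ?_) Real.exp_zero
          have cq : (n : ℝ) = (q:ℝ) * (q - 1) / 2 := by rw [hn]; exact Nat.cast_choose_two ℝ q
          rw [cq]
          have hlog2 : Real.log 2 < 1 := by
            have := Real.log_two_lt_d9
            linarith
          have h6 : (q:ℝ) * (Real.log N + 1 + D / 2 + δ) ≤ q * (Real.log q + D * q / 2) :=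
            mul_le_mul_of_nonneg_left hL hq0.le
          nlinarith

/-- all large reals satisfy the conditions -/
lemma eventually_big2 {D δ : ℝ} (hD : 0 < D) (hδ : 0 < δ) :
    ∀ᶠ x : ℝ in Filter.atTop, Big2 D δ (Real.log x) x := by
  have hlo1 : ∀ c : ℝ, 0 < c → ∀ᶠ x : ℝ in Filter.atTop, Real.log x ≤ c * x := by
    intro c hc
    have h := (Real.isLittleO_log_id_atTop.def hc)
    filter_upwards [h, Filter.eventually_ge_atTop (1:ℝ)] with x hx hx1
    rw [id, Real.norm_of_nonneg (Real.log_nonneg hx1), Real.norm_of_nonneg (by linarith)] at hx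
    exact hx
  have hlo2 : ∀ c : ℝ, 0 < c → ∀ᶠ x : ℝ in Filter.atTop, Real.log x ^ 2 ≤ c * x := by
    intro c hc
    have h := ((Real.isLittleO_pow_log_id_atTop (n := 2)).def hc)
    filter_upwards [h, Filter.eventually_ge_atTop (1:ℝ)] with x hx hx1
    rw [id, Real.norm_of_nonneg (by positivity), Real.norm_of_nonneg (by linarith)] at hx
    exact hx
  filter_upwards [hlo1 (D / 100) (by positivity), hlo1 (δ / 2000) (by positivity),
    hlo2 (δ * D / 2000) (by positivity), Filter.eventually_ge_atTop (1:ℝ),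
    Filter.eventually_ge_atTop (16:ℝ), Filter.eventually_ge_atTop (100 / D),
    Filter.eventually_ge_atTop (2000 * D / δ), Filter.eventually_ge_atTop (100 : ℝ)] with
      x h1 h2 h3 h4 h5 h6 h7 h8
  have hlog2 : Real.log 2 < 1 := by
    have := Real.log_two_lt_d9
    linarith
  rw [div_le_iff₀ hD] at h6
  rw [div_le_iff₀ hδ] at h7
  refine ⟨hD, hδ, Real.log_nonneg h4, h5, ?_, ?_, ?_⟩
  · nlinarith
  · nlinarith
  · have h9 : 12 * (Real.log x + D) ^ 2 / D ≤ 24 * Real.log x ^ 2 / D + 24 * D := by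
      rw [div_le_iff₀ hD, add_mul, div_mul_cancel₀ _ hD.ne']
      nlinarith [sq_nonneg (Real.log x - D)]
    have h10 : 24 * Real.log x ^ 2 / D ≤ 24 * (δ * x / 2000) := by
      rw [div_le_iff₀ hD]
      nlinarith
    have h11 : 2 * δ ≤ 2 * (δ * x / 100) := by nlinarith
    linarith


/-- `Q` is close to `2 L / D` -/
lemma eventually_ratio {D c : ℝ} (hD : 0 < D) (hc : 0 < c) : ∀ᶠ L : ℝ in Filter.atTop,
    (2 * L / D) * Real.exp (-c) ≤ QL D L := by
  have hlt : 0 < 1 - Real.exp (-c) := by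
    have : Real.exp (-c) < 1 := by
      rw [← Real.exp_zero]
      exact Real.exp_lt_exp.2 (by linarith)
    linarith
  set e := 1 - Real.exp (-c) with he
  have h1 : Filter.Tendsto (fun L : ℝ => 2 * L / D) Filter.atTop Filter.atTop := by
    have : (fun L : ℝ => 2 * L / D) = fun L => L * (2 / D) := by ext L; ring
    rw [this]
    exact Filter.tendsto_id.atTop_mul_const (by positivity)
  have h2 : ∀ᶠ L : ℝ in Filter.atTop, Real.log (2 * L / D) ≤ (D * e / 4) * (2 * L / D) := by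
    have h := h1.eventually
      ((Real.isLittleO_log_id_atTop.def (show (0:ℝ) < D * e / 4 by positivity)))
    filter_upwards [h, h1.eventually (Filter.eventually_ge_atTop (1:ℝ))] with L hL hL1
    rw [id, Real.norm_of_nonneg (Real.log_nonneg hL1), Real.norm_of_nonneg (by linarith)] at hL
    exact hL
  filter_upwards [h2, Filter.eventually_gt_atTop (0:ℝ), h1.eventually
    (Filter.eventually_ge_atTop (2 / e))] with L a1 a2 a3
  have e1 : (D * e / 4) * (2 * L / D) = e * L / 2 := by field_simp; ring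
  rw [e1] at a1
  have a3' : 2 / e ≤ 2 * L / D := a3
  rw [div_le_iff₀ hlt] at a3'
  unfold QL
  have b1 : 2 / D * (L - e * L / 2) ≤ 2 / D * (L - Real.log (2 * L / D) + 1) :=
    mul_le_mul_of_nonneg_left (by linarith) (by positivity)
  have b2 : 2 / D * (L - e * L / 2) = 2 * L / D - (2 * L / D) * e / 2 := by ring
  have b3 : Real.exp (-c) = 1 - e := by rw [he]; ring
  rw [b3]
  linarith

end Pool.Agent.Y812.CG
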