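import Mathlib

/-!
The weights of the pairs of complete subgraphs with `s` common vertices, as a function of `s`:
decreasing and then increasing on `3, ..., q`.
-/

set_option autoImplicit false

namespace Pool.Agent.Y812.CG

open Finset

/-- weight of the pairs with `s` common vertices -/
def g (N q s : ℕ) : ℕ := q.choose s * (N - q).choose (q - s) * 2 ^ (s.choose 2)

lemma g_succ {N q s : ℕ} (hs : s < q) (hN : 2 * q ≤ N) :
    g N q (s + 1) * ((s + 1) * (N - 2 * q + s + 1)) = g N q s * ((q - s) ^ 2 * 2 ^ s) := by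
  obtain ⟨j, rfl⟩ : ∃ j, q = s + 1 + j := ⟨q - s - 1, by omega⟩
  have e1 : (s + 1 + j) - (s + 1) = j := by omega
  have e2 : (s + 1 + j) - s = j + 1 := by omega
  have h1 := Nat.choose_succ_right_eq (s + 1 + j) s
  have h2 := Nat.choose_succ_right_eq (N - (s + 1 + j)) j
  rw [e2] at h1
  have e3 : N - (s + 1 + j) - j = N - 2 * (s + 1 + j) + s + 1 := by omega
  rw [e3] at h2
  have e4 : (s + 1).choose 2 = s.choose 2 + s := by
    rw [Nat.choose_succ_succ' s 1, Nat.choose_one_right]; ring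
  unfold g
  rw [e1, e2, e4, pow_add]
  calc (s + 1 + j).choose (s + 1) * (N - (s + 1 + j)).choose j * (2 ^ s.choose 2 * 2 ^ s) *
        ((s + 1) * (N - 2 * (s + 1 + j) + s + 1))
      = ((s + 1 + j).choose (s + 1) * (s + 1)) *
        ((N - (s + 1 + j)).choose j * (N - 2 * (s + 1 + j) + s + 1)) *
        (2 ^ s.choose 2 * 2 ^ s) := by ring
    _ = ((s + 1 + j).choose s * (j + 1)) * ((N - (s + 1 + j)).choose (j + 1) * (j + 1)) *
        (2 ^ s.choose 2 * 2 ^ s) := by rw [h1, ← h2]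
    _ = _ := by ring

/-- the weights increase at `s` -/
def P (N q s : ℕ) : Prop := (s + 1) * (N - 2 * q + s + 1) ≤ (q - s) ^ 2 * 2 ^ s

lemma P_step {N q s : ℕ} (hs : 3 ≤ s) (h5 : s + 5 ≤ q) (hN : 2 * q + 100 ≤ N) (h : P N q s) :
    P N q (s + 1) := by
  unfold P at *
  obtain ⟨e, rfl⟩ : ∃ e, q = s + 5 + e := ⟨q - s - 5, by omega⟩
  obtain ⟨M, hM⟩ : ∃ M, M = N - 2 * (s + 5 + e) + s + 1 := ⟨_, rfl⟩
  have hM100 : 100 ≤ M := by omega
  have e1 : N - 2 * (s + 5 + e) + (s + 1) + 1 = M + 1 := by omega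
  have e2 : s + 5 + e - s = e + 5 := by omega
  have e3 : s + 5 + e - (s + 1) = e + 4 := by omega
  rw [← hM, e2] at h
  rw [e1, e3, pow_succ 2 s]
  have a1 : 4 * (s + 1 + 1) ≤ 5 * (s + 1) := by omega
  have a2 : 100 * (M + 1) ≤ 101 * M := by omega
  have a3 : 505 * (e + 5) ^ 2 ≤ 800 * (e + 4) ^ 2 := by nlinarith
  have b1 : (4 * (s + 1 + 1)) * (100 * (M + 1)) ≤ (5 * (s + 1)) * (101 * M) := Nat.mul_le_mul a1 a2
  have b2 : 505 * ((s + 1) * M) ≤ 505 * ((e + 5) ^ 2 * 2 ^ s) := Nat.mul_le_mul_left _ h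
  have b3 : 505 * (e + 5) ^ 2 * 2 ^ s ≤ 800 * (e + 4) ^ 2 * 2 ^ s := Nat.mul_le_mul_right _ a3
  have b4 : 400 * ((s + 1 + 1) * (M + 1)) ≤ 400 * ((e + 4) ^ 2 * (2 ^ s * 2)) := by
    calc 400 * ((s + 1 + 1) * (M + 1)) = (4 * (s + 1 + 1)) * (100 * (M + 1)) := by ring
      _ ≤ (5 * (s + 1)) * (101 * M) := b1
      _ = 505 * ((s + 1) * M) := by ring
      _ ≤ 505 * ((e + 5) ^ 2 * 2 ^ s) := b2
      _ = 505 * (e + 5) ^ 2 * 2 ^ s := by ring
      _ ≤ 800 * (e + 4) ^ 2 * 2 ^ s := b3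
      _ = _ := by ring
  exact Nat.le_of_mul_le_mul_left b4 (by norm_num)

lemma P_end {N q s : ℕ} (hs : s < q) (h4 : q ≤ s + 4) (hN : 2 * q ≤ N)
    (H1 : 16 * q * N ≤ 2 ^ q) : P N q s := by
  unfold P
  have h1 : (s + 1) * (N - 2 * q + s + 1) ≤ q * N := Nat.mul_le_mul (by omega) (by omega)
  have h2 : 2 ^ q ≤ 16 * 2 ^ s := by
    calc 2 ^ q ≤ 2 ^ (s + 4) := Nat.pow_le_pow_right (by norm_num) h4
      _ = 16 * 2 ^ s := by rw [pow_add]; ring
  have h3 : 1 ≤ (q - s) ^ 2 := Nat.one_le_pow _ _ (by omega)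
  have h4 : q * N ≤ 2 ^ s := by
    have : 16 * (q * N) ≤ 16 * 2 ^ s := by
      calc 16 * (q * N) = 16 * q * N := by ring
        _ ≤ _ := H1.trans h2
    exact Nat.le_of_mul_le_mul_left this (by norm_num)
  calc (s + 1) * (N - 2 * q + s + 1) ≤ 1 * 2 ^ s := by rw [one_mul]; exact h1.trans h4
    _ ≤ _ := Nat.mul_le_mul_right _ h3

lemma P_up {N q s : ℕ} (hs : 3 ≤ s) (hN : 2 * q + 100 ≤ N) (H1 : 16 * q * N ≤ 2 ^ q)
    (h : P N q s) : ∀ t, s ≤ t → t < q → P N q t := by
  intro t hst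
  induction t, hst using Nat.le_induction with
  | base => intro _; exact h
  | succ t hst ih =>
    intro ht
    rcases Nat.lt_or_ge (t + 4) q with h5 | h5
    · exact P_step (by omega) (by omega) hN (ih (by omega))
    · exact P_end ht (by omega) (by omega) H1

lemma g_le {N q : ℕ} (hN : 2 * q + 100 ≤ N) (H1 : 16 * q * N ≤ 2 ^ q) {s : ℕ} (hs : 3 ≤ s)
    (hsq : s ≤ q) : g N q s ≤ g N q 3 + g N q q := by
  have up : ∀ t, t < q → P N q t → g N q t ≤ g N q (t + 1) := by
    intro t ht hP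
    have h := g_succ (N := N) ht (by omega)
    have hpos : 0 < (t + 1) * (N - 2 * q + t + 1) := by positivity
    refine Nat.le_of_mul_le_mul_right ?_ hpos
    rw [h]
    exact Nat.mul_le_mul_left _ hP
  have down : ∀ t, t < q → ¬ P N q t → g N q (t + 1) ≤ g N q t := by
    intro t ht hP
    have h := g_succ (N := N) ht (by omega)
    have hpos : 0 < (t + 1) * (N - 2 * q + t + 1) := by positivity
    refine Nat.le_of_mul_le_mul_right ?_ hpos
    rw [h]
    unfold P at hP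
    exact Nat.mul_le_mul_left _ (not_le.1 hP).le
  rcases Nat.lt_or_ge s q with hlt | hge
  · by_cases hP : P N q s
    · have hU := P_up hs hN H1 hP
      have : ∀ t, s ≤ t → t ≤ q → g N q s ≤ g N q t := by
        intro t hst
        induction t, hst using Nat.le_induction with
        | base => intro _; exact le_rfl
        | succ t hst ih =>
          intro ht
          exact (ih (by omega)).trans (up t (by omega) (hU t hst (by omega)))
      exact (this q hsq le_rfl).trans (Nat.le_add_left _ _)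
    · have hD : ∀ t, 3 ≤ t → t ≤ s → ¬ P N q t := fun t h3 hts hPt =>
        hP (P_up h3 hN H1 hPt s hts hlt)
      have : ∀ t, 3 ≤ t → t ≤ s → g N q t ≤ g N q 3 := by
        intro t h3
        induction t, h3 using Nat.le_induction with
        | base => intro _; exact le_rfl
        | succ t h3 ih =>
          intro ht
          exact (down t (by omega) (hD t h3 (by omega))).trans (ih (by omega))
      exact (this s hs le_rfl).trans (Nat.le_add_right _ _)
  · have : s = q := le_antisymm hsq hge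
    subst this
    exact Nat.le_add_left _ _

lemma g_top (N q : ℕ) : g N q q = 2 ^ (q.choose 2) := by
  unfold g; simp

lemma g_choose {N q s : ℕ} (hs : s ≤ q) (hq : q ≤ N) :
    g N q s * N.choose s ≤ 2 ^ (s.choose 2) * q.choose s ^ 2 * N.choose q := by
  have h1 : (N - q).choose (q - s) ≤ (N - s).choose (q - s) :=
    Nat.choose_le_choose _ (by omega)
  have h2 := Nat.choose_mul (n := N) (k := q) (s := s) hs
  unfold g
  calc q.choose s * (N - q).choose (q - s) * 2 ^ s.choose 2 * N.choose s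
      ≤ q.choose s * (N - s).choose (q - s) * 2 ^ s.choose 2 * N.choose s := by
        refine Nat.mul_le_mul_right _ (Nat.mul_le_mul_right _ (Nat.mul_le_mul_left _ h1))
    _ = 2 ^ s.choose 2 * q.choose s * (N.choose s * (N - s).choose (q - s)) := by ring
    _ = 2 ^ s.choose 2 * q.choose s * (N.choose q * q.choose s) := by rw [h2]
    _ = _ := by ring

lemma choose3_le (q : ℕ) : 6 * q.choose 3 ≤ q ^ 3 := by
  have h := Nat.choose_le_pow_div 3 q (α := ℝ)
  have h6 : ((Nat.factorial 3 : ℕ) : ℝ) = 6 := by norm_num [Nat.factorial]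
  rw [h6, le_div_iff₀ (by norm_num)] at h
  have : ((6 * q.choose 3 : ℕ) : ℝ) ≤ ((q ^ 3 : ℕ) : ℝ) := by push_cast; linarith
  exact_mod_cast this

lemma choose2_le (q : ℕ) : 2 * q.choose 2 ≤ q ^ 2 := by
  rw [Nat.choose_two_right]
  calc 2 * (q * (q - 1) / 2) ≤ q * (q - 1) := Nat.mul_div_le _ _
    _ ≤ q * q := Nat.mul_le_mul_left _ (Nat.sub_le _ _)
    _ = q ^ 2 := (sq q).symm

lemma choose3_ge {N : ℕ} (hN : 10 ≤ N) : N ^ 3 ≤ 12 * N.choose 3 := by
  have h := Nat.descFactorial_eq_factorial_mul_choose N 3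
  have h6 : Nat.factorial 3 = 6 := rfl
  rw [h6] at h
  obtain ⟨k, rfl⟩ : ∃ k, N = k + 10 := ⟨N - 10, by omega⟩
  have hd : (k + 10).descFactorial 3 = (k + 8) * ((k + 9) * (k + 10)) := by
    simp [Nat.descFactorial]
  rw [hd] at h
  nlinarith

lemma choose2_ge {N : ℕ} (hN : 10 ≤ N) : N ^ 2 ≤ 4 * N.choose 2 := by
  have h := Nat.descFactorial_eq_factorial_mul_choose N 2
  have h6 : Nat.factorial 2 = 2 := rfl
  rw [h6] at h
  obtain ⟨k, rfl⟩ : ∃ k, N = k + 10 := ⟨N - 10, by omega⟩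
  have hd : (k + 10).descFactorial 2 = (k + 9) * (k + 10) := by
    simp [Nat.descFactorial]
  rw [hd] at h
  nlinarith

/-- sum of the weights over `s ≥ 3` -/
theorem sum3 {N q : ℕ} (hq : 3 ≤ q) (hN : 2 * q + 100 ≤ N) (H1 : 16 * q * N ≤ 2 ^ q)
    (H2 : 6 * (q + 1) ^ 7 ≤ N) (H3 : 2 * N ^ 2 * (q + 1) * 2 ^ (q.choose 2) ≤ N.choose q) :
    N ^ 2 * ∑ s ∈ (range (q + 1)).filter (fun s => 2 ≤ s.choose 2), g N q s ≤ N.choose q := by
  have h1 : ∑ s ∈ (range (q + 1)).filter (fun s => 2 ≤ s.choose 2), g N q s ≤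
      (q + 1) * (g N q 3 + g N q q) := by
    have : ∑ s ∈ (range (q + 1)).filter (fun s => 2 ≤ s.choose 2), g N q s ≤
        ∑ s ∈ (range (q + 1)).filter (fun s => 2 ≤ s.choose 2), (g N q 3 + g N q q) := by
      refine Finset.sum_le_sum (fun s hs => ?_)
      rw [mem_filter, mem_range] at hs
      refine g_le hN H1 ?_ (by omega)
      by_contra hlt
      have h : s = 0 ∨ s = 1 ∨ s = 2 := by omega
      rcases h with rfl | rfl | rfl <;> simp [Nat.choose] at hs
    refine this.trans ?_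
    rw [Finset.sum_const, smul_eq_mul]
    refine Nat.mul_le_mul_right _ ?_
    exact (card_filter_le _ _).trans (by rw [card_range])
  have h3 : 2 * N ^ 2 * (q + 1) * g N q 3 ≤ N.choose q := by
    have hc := g_choose (N := N) (q := q) (s := 3) hq (by omega)
    have hpos : 0 < N.choose 3 := Nat.choose_pos (by omega)
    refine Nat.le_of_mul_le_mul_right ?_ hpos
    have e8 : (2 : ℕ) ^ (Nat.choose 3 2) = 8 := by norm_num [Nat.choose]
    rw [e8] at hc
    have hq3 := choose3_le q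
    have hN3 := choose3_ge (N := N) (by omega)
    have k1 : 36 * q.choose 3 ^ 2 ≤ q ^ 6 := by
      calc 36 * q.choose 3 ^ 2 = (6 * q.choose 3) ^ 2 := by ring
        _ ≤ (q ^ 3) ^ 2 := Nat.pow_le_pow_left hq3 2
        _ = q ^ 6 := by ring
    have k2 : 2 * N ^ 2 * (q + 1) * (8 * q.choose 3 ^ 2) ≤ N.choose 3 := by
      have k3 : 36 * (2 * N ^ 2 * (q + 1) * (8 * q.choose 3 ^ 2)) ≤ 36 * N.choose 3 := by
        calc 36 * (2 * N ^ 2 * (q + 1) * (8 * q.choose 3 ^ 2))
            = 16 * N ^ 2 * (q + 1) * (36 * q.choose 3 ^ 2) := by ring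
          _ ≤ 16 * N ^ 2 * (q + 1) * q ^ 6 := Nat.mul_le_mul_left _ k1
          _ ≤ 16 * N ^ 2 * (q + 1) * (q + 1) ^ 6 :=
              Nat.mul_le_mul_left _ (Nat.pow_le_pow_left (by omega) 6)
          _ ≤ 18 * N ^ 2 * (q + 1) ^ 7 := by
              have : 16 * N ^ 2 * (q + 1) * (q + 1) ^ 6 = 16 * (N ^ 2 * (q + 1) ^ 7) := by ring
              rw [this]
              have : 18 * N ^ 2 * (q + 1) ^ 7 = 18 * (N ^ 2 * (q + 1) ^ 7) := by ring
              rw [this]
              exact Nat.mul_le_mul_right _ (by norm_num)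
          _ = 3 * N ^ 2 * (6 * (q + 1) ^ 7) := by ring
          _ ≤ 3 * N ^ 2 * N := Nat.mul_le_mul_left _ H2
          _ = 3 * N ^ 3 := by ring
          _ ≤ 3 * (12 * N.choose 3) := Nat.mul_le_mul_left _ hN3
          _ = 36 * N.choose 3 := by ring
      exact Nat.le_of_mul_le_mul_left k3 (by norm_num)
    calc 2 * N ^ 2 * (q + 1) * g N q 3 * N.choose 3
        = 2 * N ^ 2 * (q + 1) * (g N q 3 * N.choose 3) := by ring
      _ ≤ 2 * N ^ 2 * (q + 1) * (8 * q.choose 3 ^ 2 * N.choose q) := Nat.mul_le_mul_left _ hc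
      _ = (2 * N ^ 2 * (q + 1) * (8 * q.choose 3 ^ 2)) * N.choose q := by ring
      _ ≤ N.choose 3 * N.choose q := Nat.mul_le_mul_right _ k2
      _ = N.choose q * N.choose 3 := by ring
  rw [← g_top N q] at H3
  have h4 : 2 * (N ^ 2 * ∑ s ∈ (range (q + 1)).filter (fun s => 2 ≤ s.choose 2), g N q s) ≤
      2 * N.choose q := by
    calc 2 * (N ^ 2 * ∑ s ∈ (range (q + 1)).filter (fun s => 2 ≤ s.choose 2), g N q s)
        ≤ 2 * (N ^ 2 * ((q + 1) * (g N q 3 + g N q q))) :=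
          Nat.mul_le_mul_left _ (Nat.mul_le_mul_left _ h1)
      _ = 2 * N ^ 2 * (q + 1) * g N q 3 + 2 * N ^ 2 * (q + 1) * g N q q := by ring
      _ ≤ N.choose q + N.choose q := Nat.add_le_add h3 H3
      _ = _ := by ring
  exact Nat.le_of_mul_le_mul_left h4 (by norm_num)

/-- sum of the weights over `s ≥ 2` -/
theorem sum2 {N q : ℕ} (hq : 3 ≤ q) (hN : 2 * q + 100 ≤ N) (H1 : 16 * q * N ≤ 2 ^ q)
    (H2 : 6 * (q + 1) ^ 7 ≤ N) (H3 : 2 * N ^ 2 * (q + 1) * 2 ^ (q.choose 2) ≤ N.choose q) :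
    8 * ∑ s ∈ (range (q + 1)).filter (fun s => 1 ≤ s.choose 2), g N q s ≤ N.choose q := by
  have h3 := sum3 hq hN H1 H2 H3
  have h1 : ∑ s ∈ (range (q + 1)).filter (fun s => 1 ≤ s.choose 2), g N q s ≤
      g N q 2 + ∑ s ∈ (range (q + 1)).filter (fun s => 2 ≤ s.choose 2), g N q s := by
    have hsub : (range (q + 1)).filter (fun s => 1 ≤ s.choose 2) ⊆
        insert 2 ((range (q + 1)).filter (fun s => 2 ≤ s.choose 2)) := by
      intro s hs
      rw [mem_filter, mem_range] at hs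
      rw [mem_insert, mem_filter, mem_range]
      by_cases h2 : s = 2
      · left; exact h2
      · right
        refine ⟨hs.1, ?_⟩
        have hs3 : 3 ≤ s := by
          by_contra hlt
          have h : s = 0 ∨ s = 1 := by omega
          rcases h with rfl | rfl <;> simp at hs
        calc 2 ≤ Nat.choose 3 2 := by decide
          _ ≤ s.choose 2 := Nat.choose_le_choose 2 hs3
    refine (Finset.sum_le_sum_of_subset hsub).trans ?_
    rw [Finset.sum_insert]
    rw [mem_filter]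
    rintro ⟨_, h⟩
    simp at h
  have hg2 : 16 * g N q 2 ≤ N.choose q := by
    have hc := g_choose (N := N) (q := q) (s := 2) (by omega) (by omega)
    have hpos : 0 < N.choose 2 := Nat.choose_pos (by omega)
    refine Nat.le_of_mul_le_mul_right ?_ hpos
    have e8 : (2 : ℕ) ^ (Nat.choose 2 2) = 2 := by norm_num
    rw [e8] at hc
    have hq2 := choose2_le q
    have hN2 := choose2_ge (N := N) (by omega)
    have k1 : 4 * q.choose 2 ^ 2 ≤ q ^ 4 := by
      calc 4 * q.choose 2 ^ 2 = (2 * q.choose 2) ^ 2 := by ring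
        _ ≤ (q ^ 2) ^ 2 := Nat.pow_le_pow_left hq2 2
        _ = q ^ 4 := by ring
    have k2 : 32 * q.choose 2 ^ 2 ≤ N.choose 2 := by
      have k4 : 6 * q ^ 4 ≤ N := by
        refine le_trans ?_ H2
        refine Nat.mul_le_mul_left _ ?_
        calc q ^ 4 ≤ (q + 1) ^ 4 := Nat.pow_le_pow_left (by omega) 4
          _ ≤ (q + 1) ^ 7 := Nat.pow_le_pow_right (by omega) (by norm_num)
      have k5 : 4 * (32 * q.choose 2 ^ 2) ≤ 4 * N.choose 2 := by
        calc 4 * (32 * q.choose 2 ^ 2) = 32 * (4 * q.choose 2 ^ 2) := by ring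
          _ ≤ 32 * q ^ 4 := Nat.mul_le_mul_left _ k1
          _ ≤ 6 * (6 * q ^ 4) := by omega
          _ ≤ N * N := Nat.mul_le_mul (by omega) k4
          _ = N ^ 2 := by ring
          _ ≤ _ := hN2
      exact Nat.le_of_mul_le_mul_left k5 (by norm_num)
    calc 16 * g N q 2 * N.choose 2 = 16 * (g N q 2 * N.choose 2) := by ring
      _ ≤ 16 * (2 * q.choose 2 ^ 2 * N.choose q) := Nat.mul_le_mul_left _ hc
      _ = (32 * q.choose 2 ^ 2) * N.choose q := by ring
      _ ≤ N.choose 2 * N.choose q := Nat.mul_le_mul_right _ k2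
      _ = _ := by ring
  have h16 : 16 * ∑ s ∈ (range (q + 1)).filter (fun s => 2 ≤ s.choose 2), g N q s ≤
      N.choose q := by
    refine le_trans ?_ h3
    refine Nat.mul_le_mul_right _ ?_
    calc 16 ≤ 100 ^ 2 := by norm_num
      _ ≤ N ^ 2 := Nat.pow_le_pow_left (by omega) 2
  omega

end Pool.Agent.Y812.CG
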