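import Pool.Agent.Helper40.CliqueFam
import Pool.Agent.Y812.CG.Sum
import Pool.Agent.Y812.CG.Log

/-!
The clique games on `N` vertices: the second moment criterion and the blocking criterion for
arbitrary `N`.
-/

set_option autoImplicit false

namespace Pool.Agent.Y812.CG

open Finset Pool.Agent.Helper40.Game Pool.Agent.Helper40.SM Pool.Agent.Helper40.K9
  Pool.Agent.Helper40.CF

section General

variable {β : Type*} [DecidableEq β] [Inhabited β] {K : Type*} [DecidableEq K]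

lemma wd_two {D M B : Finset β} {x : β} (hM : x ∉ M) (hB : x ∉ B) :
    wd D (insert x M) B ≤ 2 * wd D M B := by
  have h := wd_harm D M B x hM hB
  have h2 := wd_nonneg D M (insert x B)
  linarith

/-- the avoiding criterion for the first player in the reverse game on an arbitrary board -/
theorem avoider_wins_all (E : Finset β) (F : Finset K) (A : K → Finset β)
    (hsmall : 2 * T0 F A < 1) :
    ∃ σ : List β → β, Legal E 0 σ ∧ ∀ h : List β, h.Nodup → (∀ e ∈ h, e ∈ E) →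
      (∀ e ∈ E, e ∈ h) → Cons σ 0 h → ∀ i ∈ F, ¬ A i ⊆ cls 0 h := by
  have hT : 0 ≤ T0 F A := by
    unfold T0
    exact Finset.sum_nonneg (fun i _ => by positivity)
  have hT0 : ∑ i ∈ F, wd (A i) ∅ ∅ = T0 F A := by
    unfold T0
    exact Finset.sum_congr rfl (fun i _ => wd_empty _)
  set L : Finset β → Finset β → ℝ := fun M B => (0 : ℝ) - 1 * ∑ i ∈ F, wd (A i) M B with hL
  refine ⟨gM E L, gM_legal E L, ?_⟩
  intro h hnd hE hall hc
  refine not_sub F A ?_
  have hlen := complete_length hnd hE hall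
  rcases Nat.even_or_odd E.card with ⟨n, hn⟩ | ⟨n, hn⟩
  · have h1 := M_inv (κ := 0) (negT_harm F A) (negT_D2 E F A) n h (by omega) hnd hE hc
    rw [hT0] at h1
    linarith
  · rcases List.eq_nil_or_concat h with h' | ⟨l1, y, h'⟩
    · subst h'; simp at hlen; omega
    subst h'
    rw [List.concat_eq_append] at *
    have hlen1 : l1.length = 2 * n := by
      rw [List.length_append, List.length_singleton] at hlen; omega
    have hnd1 := (nodup_append_one.1 hnd).1
    have hy := (nodup_append_one.1 hnd).2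
    have h1 := M_inv (κ := 0) (negT_harm F A) (negT_D2 E F A) n l1 hlen1 hnd1
      (fun e he => hE e (by simp [he])) hc.front
    rw [hT0] at h1
    have e0 : cls 0 (l1 ++ [y]) = insert y (cls 0 l1) := cls_append_same hy (by omega)
    have e1 : cls 1 (l1 ++ [y]) = cls 1 l1 := cls_append_other hy (by omega)
    rw [e0, e1]
    have h2 : ∑ i ∈ F, wd (A i) (insert y (cls 0 l1)) (cls 1 l1) ≤
        2 * ∑ i ∈ F, wd (A i) (cls 0 l1) (cls 1 l1) := by
      rw [Finset.mul_sum]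
      exact Finset.sum_le_sum (fun i _ => wd_two (not_mem_cls hy) (not_mem_cls hy))
    linarith

end General

/-- first and second moments give both kinds of wins -/
theorem forces {N q : ℕ} [Inhabited (Sym2 (Fin N))] (hN : 2 ≤ N) (hq : q ≤ N)
    (h3 : N ^ 2 * ∑ s ∈ (range (q + 1)).filter (fun s => 2 ≤ s.choose 2), g N q s ≤ N.choose q)
    (h2 : 8 * ∑ s ∈ (range (q + 1)).filter (fun s => 1 ≤ s.choose 2), g N q s ≤ N.choose q) :
    (∃ σ : List (Sym2 (Fin N)) → Sym2 (Fin N), Legal (EE N) 0 σ ∧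
      ∀ h : List (Sym2 (Fin N)), h.Nodup → (∀ e ∈ h, e ∈ EE N) → (∀ e ∈ EE N, e ∈ h) →
      Cons σ 0 h → ∃ i ∈ fam N q, edg i ⊆ cls 0 h) ∧
    (∃ σ : List (Sym2 (Fin N)) → Sym2 (Fin N), Legal (EE N) 1 σ ∧
      ∀ h : List (Sym2 (Fin N)), h.Nodup → (∀ e ∈ h, e ∈ EE N) → (∀ e ∈ EE N, e ∈ h) →
      Cons σ 1 h → ∃ i ∈ fam N q, edg i ⊆ cls 0 h) := by
  have hNr : (0 : ℝ) < N := by exact_mod_cast (show 0 < N by omega)
  have hC : (0 : ℝ) < (N.choose q : ℝ) := by exact_mod_cast Nat.choose_pos hq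
  set T : ℝ := T0 (fam N q) edg with hTdef
  have hT : T = (N.choose q : ℝ) / 2 ^ (q.choose 2) := T0_clique q
  have hTpos : 0 < T := by rw [hT]; positivity
  have hE0 : 0 < (EE N).card := by rw [card_EE]; exact Nat.choose_pos hN
  have hEne : (EE N).Nonempty := Finset.card_pos.1 hE0
  have hEr : (0 : ℝ) < ((EE N).card : ℝ) := by exact_mod_cast hE0
  have hE2 : 2 * ((EE N).card : ℝ) ≤ (N : ℝ) ^ 2 := by
    rw [card_EE]
    exact_mod_cast choose2_le N
  -- second moments
  have hU : ∀ r, U0 (fam N q) edg r ≤ T * (((∑ s ∈ (range (q + 1)).filter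
      (fun s => r ≤ s.choose 2), g N q s : ℕ) : ℝ) / 2 ^ (q.choose 2)) := by
    intro r
    have h := U0_clique (N := N) q r
    rw [← hT] at h
    refine h.trans (le_of_eq ?_)
    congr 2
    push_cast
    refine Finset.sum_congr rfl (fun s _ => ?_)
    unfold g
    push_cast
    ring
  have hU3 : (N : ℝ) ^ 2 * U0 (fam N q) edg 2 ≤ T * T := by
    have h3' : (N : ℝ) ^ 2 * ((∑ s ∈ (range (q + 1)).filter (fun s => 2 ≤ s.choose 2),
        g N q s : ℕ) : ℝ) ≤ (N.choose q : ℝ) := by exact_mod_cast h3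
    calc (N : ℝ) ^ 2 * U0 (fam N q) edg 2 ≤ (N : ℝ) ^ 2 * (T * (((∑ s ∈ (range (q + 1)).filter
          (fun s => 2 ≤ s.choose 2), g N q s : ℕ) : ℝ) / 2 ^ (q.choose 2))) :=
          mul_le_mul_of_nonneg_left (hU 2) (by positivity)
      _ = T * (((N : ℝ) ^ 2 * ((∑ s ∈ (range (q + 1)).filter
          (fun s => 2 ≤ s.choose 2), g N q s : ℕ) : ℝ)) / 2 ^ (q.choose 2)) := by ring
      _ ≤ T * ((N.choose q : ℝ) / 2 ^ (q.choose 2)) :=
          mul_le_mul_of_nonneg_left (div_le_div_of_nonneg_right h3' (by positivity)) hTpos.le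
      _ = T * T := by rw [← hT]
  have hU2 : 8 * U0 (fam N q) edg 1 ≤ T * T := by
    have h2' : 8 * ((∑ s ∈ (range (q + 1)).filter (fun s => 1 ≤ s.choose 2),
        g N q s : ℕ) : ℝ) ≤ (N.choose q : ℝ) := by exact_mod_cast h2
    calc 8 * U0 (fam N q) edg 1 ≤ 8 * (T * (((∑ s ∈ (range (q + 1)).filter
          (fun s => 1 ≤ s.choose 2), g N q s : ℕ) : ℝ) / 2 ^ (q.choose 2))) :=
          mul_le_mul_of_nonneg_left (hU 1) (by norm_num)
      _ = T * ((8 * ((∑ s ∈ (range (q + 1)).filter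
          (fun s => 1 ≤ s.choose 2), g N q s : ℕ) : ℝ)) / 2 ^ (q.choose 2)) := by ring
      _ ≤ T * ((N.choose q : ℝ) / 2 ^ (q.choose 2)) :=
          mul_le_mul_of_nonneg_left (div_le_div_of_nonneg_right h2' (by positivity)) hTpos.le
      _ = T * T := by rw [← hT]
  have hU0 : 0 ≤ U0 (fam N q) edg 2 := by
    unfold U0
    exact Finset.sum_nonneg (fun p _ => by positivity)
  -- the parameter `l = |E| / (8 T)`
  have hl : 0 < ((EE N).card : ℝ) / (8 * T) := by positivity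
  have e1 : ((EE N).card : ℝ) / (32 * (((EE N).card : ℝ) / (8 * T))) = T / 4 := by
    field_simp; ring
  have e2 : ((EE N).card : ℝ) / (8 * T) * U0 (fam N q) edg 2 ≤ T / 16 := by
    rw [div_mul_eq_mul_div, div_le_iff₀ (by positivity)]
    have : 2 * (((EE N).card : ℝ) * U0 (fam N q) edg 2) ≤ T * T := by
      calc 2 * (((EE N).card : ℝ) * U0 (fam N q) edg 2) =
            (2 * ((EE N).card : ℝ)) * U0 (fam N q) edg 2 := by ring
        _ ≤ (N : ℝ) ^ 2 * U0 (fam N q) edg 2 := mul_le_mul_of_nonneg_right hE2 hU0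
        _ ≤ _ := hU3
    linarith
  constructor
  · refine maker_wins (EE N) (fam N q) edg (fun i _ => edg_subset_EE i) hl ?_
    rw [e1, ← hTdef]
    linarith
  · refine forcer_wins (EE N) (fam N q) edg (fun i _ => edg_subset_EE i) hEne hl
      (m := 1 / T) (by positivity) ?_
    have e3 : 2 * (1 / T) * U0 (fam N q) edg 1 ≤ T / 4 := by
      have h8 : U0 (fam N q) edg 1 ≤ T * T / 8 := by linarith
      calc 2 * (1 / T) * U0 (fam N q) edg 1 ≤ 2 * (1 / T) * (T * T / 8) :=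
            mul_le_mul_of_nonneg_left h8 (by positivity)
        _ = T / 4 := by field_simp; ring
    have e4 : 1 / (8 * (1 / T)) = T / 8 := by field_simp
    have e5 : 2 * (((EE N).card : ℝ) / (8 * T)) * U0 (fam N q) edg 2 =
        2 * (((EE N).card : ℝ) / (8 * T) * U0 (fam N q) edg 2) := by ring
    rw [e1, e4, e5, ← hTdef]
    linarith

/-- blocking strategies -/
theorem blocks {N q : ℕ} [Inhabited (Sym2 (Fin N))] (hN : 2 ≤ N)
    (h : 2 * ((N.choose q : ℝ) / 2 ^ (q.choose 2)) < 1) :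
    (∃ σ : List (Sym2 (Fin N)) → Sym2 (Fin N), Legal (EE N) 1 σ ∧
      ∀ h : List (Sym2 (Fin N)), h.Nodup → (∀ e ∈ h, e ∈ EE N) → (∀ e ∈ EE N, e ∈ h) →
      Cons σ 1 h → ∀ i ∈ fam N q, ¬ edg i ⊆ cls 0 h) ∧
    (∃ σ : List (Sym2 (Fin N)) → Sym2 (Fin N), Legal (EE N) 0 σ ∧
      ∀ h : List (Sym2 (Fin N)), h.Nodup → (∀ e ∈ h, e ∈ EE N) → (∀ e ∈ EE N, e ∈ h) →
      Cons σ 0 h → ∀ i ∈ fam N q, ¬ edg i ⊆ cls 0 h) := by
  have hE0 : 0 < (EE N).card := by rw [card_EE]; exact Nat.choose_pos hN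
  have hEne : (EE N).Nonempty := Finset.card_pos.1 hE0
  have hT : 2 * T0 (fam N q) edg < 1 := by rw [T0_clique]; exact h
  exact ⟨breaker_wins (EE N) (fam N q) edg hEne hT, avoider_wins_all (EE N) (fam N q) edg hT⟩

end Pool.Agent.Y812.CG
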